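import Mathlib

/-!
# `SL(2, ℝ)` in complex coordinates

A real `2 × 2` matrix `x` acts on `ℂ = ℝ²` by `z ↦ al x * z + be x * conj z`.  It is in `SL(2, ℝ)`
if and only if `|al x|² - |be x|² = 1`.  `mu x = arsinh |be x|` is half the distance between `o`
and `x o` in the hyperbolic plane `SL(2, ℝ)/SO(2)`.
-/

open Matrix ComplexConjugate

namespace F31343D

/-- `SL(2, ℝ)` -/
abbrev SL2 := Matrix.SpecialLinearGroup (Fin 2) ℝ

/-- The `ℂ`-linear part of a real `2 × 2` matrix. -/
noncomputable def al (x : Matrix (Fin 2) (Fin 2) ℝ) : ℂ :=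
  ⟨(x 0 0 + x 1 1) / 2, (x 1 0 - x 0 1) / 2⟩

/-- The antilinear part of a real `2 × 2` matrix. -/
noncomputable def be (x : Matrix (Fin 2) (Fin 2) ℝ) : ℂ :=
  ⟨(x 0 0 - x 1 1) / 2, (x 1 0 + x 0 1) / 2⟩

/-- The matrix of `z ↦ a z + b conj z`. -/
noncomputable def ab (a b : ℂ) : Matrix (Fin 2) (Fin 2) ℝ :=
  !![(a + b).re, -(a - b).im; (a + b).im, (a - b).re]

@[simp] lemma al_ab (a b : ℂ) : al (ab a b) = a := by
  apply Complex.ext <;> simp [al, ab]; ring

@[simp] lemma be_ab (a b : ℂ) : be (ab a b) = b := by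
  apply Complex.ext <;> simp [be, ab]; ring

lemma ab_al_be (x : Matrix (Fin 2) (Fin 2) ℝ) : ab (al x) (be x) = x := by
  ext i j
  fin_cases i <;> fin_cases j <;> simp [al, ab, be] <;> ring

lemma al_mul (x y : Matrix (Fin 2) (Fin 2) ℝ) : al (x * y) = al x * al y + be x * conj (be y) := by
  apply Complex.ext <;> simp [al, be, Matrix.mul_apply, Fin.sum_univ_two] <;> ring

lemma be_mul (x y : Matrix (Fin 2) (Fin 2) ℝ) : be (x * y) = al x * be y + be x * conj (al y) := by
  apply Complex.ext <;> simp [al, be, Matrix.mul_apply, Fin.sum_univ_two] <;> ring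

lemma al_one : al 1 = 1 := by
  apply Complex.ext <;> simp [al]

lemma be_one : be 1 = 0 := by
  apply Complex.ext <;> simp [be]

lemma al_adj (x : Matrix (Fin 2) (Fin 2) ℝ) : al (adjugate x) = conj (al x) := by
  apply Complex.ext <;> simp [al, Matrix.adjugate_fin_two] <;> ring

lemma be_adj (x : Matrix (Fin 2) (Fin 2) ℝ) : be (adjugate x) = -be x := by
  apply Complex.ext <;> simp [be, Matrix.adjugate_fin_two] <;> ring

lemma det_eq (x : Matrix (Fin 2) (Fin 2) ℝ) : x.det = ‖al x‖ ^ 2 - ‖be x‖ ^ 2 := by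
  rw [← Complex.normSq_eq_norm_sq, ← Complex.normSq_eq_norm_sq, Complex.normSq_apply,
    Complex.normSq_apply, Matrix.det_fin_two]
  simp only [al, be]
  ring

/-- The element of `SL(2, ℝ)` with coordinates `a`, `b`. -/
noncomputable def mk (a b : ℂ) (h : ‖a‖ ^ 2 - ‖b‖ ^ 2 = 1) : SL2 :=
  ⟨ab a b, by rw [det_eq, al_ab, be_ab, h]⟩

@[simp] lemma mk_val (a b : ℂ) (h : ‖a‖ ^ 2 - ‖b‖ ^ 2 = 1) : (mk a b h).val = ab a b := rfl

lemma ext_ab {x y : SL2} (h1 : al x.val = al y.val) (h2 : be x.val = be y.val) : x = y := by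
  apply Subtype.ext
  rw [← ab_al_be x.val, ← ab_al_be y.val, h1, h2]

lemma norm_sq (x : SL2) : ‖al x.val‖ ^ 2 - ‖be x.val‖ ^ 2 = 1 := by
  rw [← det_eq, x.2]

@[simp] lemma al_inv (x : SL2) : al (x⁻¹).val = conj (al x.val) := by
  rw [Matrix.SpecialLinearGroup.coe_inv, al_adj]

@[simp] lemma be_inv (x : SL2) : be (x⁻¹).val = -be x.val := by
  rw [Matrix.SpecialLinearGroup.coe_inv, be_adj]

lemma al_mul' (x y : SL2) : al (x * y).val =
    al x.val * al y.val + be x.val * conj (be y.val) := by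
  rw [Matrix.SpecialLinearGroup.coe_mul, al_mul]

lemma be_mul' (x y : SL2) : be (x * y).val =
    al x.val * be y.val + be x.val * conj (al y.val) := by
  rw [Matrix.SpecialLinearGroup.coe_mul, be_mul]

/-- Half the distance between `o` and `x o` in the hyperbolic plane. -/
noncomputable def mu (x : SL2) : ℝ := Real.arsinh ‖be x.val‖

lemma sinh_mu (x : SL2) : Real.sinh (mu x) = ‖be x.val‖ := Real.sinh_arsinh _

lemma cosh_mu (x : SL2) : Real.cosh (mu x) = ‖al x.val‖ := by
  have h1 := Real.cosh_sq (mu x)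
  rw [sinh_mu] at h1
  have h2 := norm_sq x
  have h3 : Real.cosh (mu x) ^ 2 = ‖al x.val‖ ^ 2 := by linarith
  exact (sq_eq_sq₀ (Real.cosh_pos _).le (norm_nonneg _)).mp h3

lemma mu_nonneg (x : SL2) : 0 ≤ mu x := Real.arsinh_nonneg_iff.mpr (norm_nonneg _)

@[simp] lemma mu_one : mu 1 = 0 := by
  unfold mu
  rw [Matrix.SpecialLinearGroup.coe_one, be_one, norm_zero, Real.arsinh_zero]

@[simp] lemma mu_inv (x : SL2) : mu x⁻¹ = mu x := by
  unfold mu
  rw [be_inv, norm_neg]

lemma mu_mul_le (x y : SL2) : mu (x * y) ≤ mu x + mu y := by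
  rw [← Real.sinh_le_sinh, sinh_mu, be_mul', Real.sinh_add, sinh_mu, sinh_mu, cosh_mu, cosh_mu]
  refine (norm_add_le _ _).trans ?_
  rw [norm_mul, norm_mul, RCLike.norm_conj]
  linarith

lemma mu_le_iff (x : SL2) (R : ℝ) : mu x ≤ R ↔ ‖be x.val‖ ≤ Real.sinh R := by
  rw [← Real.sinh_le_sinh, sinh_mu]

lemma mu_le_mul (x y : SL2) : mu x ≤ mu (x * y) + mu y := by
  have h := mu_mul_le (x * y) y⁻¹
  rwa [mul_inv_cancel_right, mu_inv] at h

lemma mu_le_mul' (x y : SL2) : mu y ≤ mu (x * y) + mu x := by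
  have h := mu_mul_le x⁻¹ (x * y)
  rw [inv_mul_cancel_left, mu_inv] at h
  linarith

lemma mu_inv_mul_comm (x y : SL2) : mu (x⁻¹ * y) = mu (y⁻¹ * x) := by
  rw [← mu_inv, _root_.mul_inv_rev, inv_inv]

/-- `cosh` of the distance between `o` and `x o`. -/
noncomputable def P (x : SL2) : ℝ := ‖al x.val‖ ^ 2 + ‖be x.val‖ ^ 2

/-- The other coordinates of `x o` in the hyperboloid model. -/
noncomputable def Q (x : SL2) : ℂ := 2 * al x.val * be x.val

lemma P_eq (x : SL2) : P x = Real.cosh (2 * mu x) := by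
  rw [Real.cosh_two_mul, sinh_mu, cosh_mu]; rfl

lemma norm_Q (x : SL2) : ‖Q x‖ = Real.sinh (2 * mu x) := by
  rw [Real.sinh_two_mul, sinh_mu, cosh_mu]
  unfold Q
  rw [norm_mul, norm_mul]
  simp
  ring

lemma P_inv_mul (x y : SL2) : P (x⁻¹ * y) = P x * P y - (conj (Q x) * Q y).re := by
  unfold P Q
  rw [al_mul', be_mul', al_inv, be_inv]
  simp only [← Complex.normSq_eq_norm_sq, Complex.normSq_apply]
  simp
  ring

/-- Rotations: for all `x`, `y` some `k ∈ SO(2)` has `mu (x k y) = |mu x - mu y|`. -/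
lemma exists_rotation (x y : SL2) : ∃ k : SL2, mu k = 0 ∧ mu (x * k * y) = |mu x - mu y| := by
  -- choose a unit complex number `e` with `al x * be y * e` and `be x * conj (al y) * conj e`
  -- of opposite phases
  obtain ⟨e, he, h⟩ : ∃ e : ℂ, ‖e‖ = 1 ∧ ‖al x.val * e * be y.val + be x.val * conj e * conj (al y.val)‖
      = |‖al x.val‖ * ‖be y.val‖ - ‖be x.val‖ * ‖al y.val‖| := by
    set p := al x.val * be y.val with hp
    set q := be x.val * conj (al y.val) with hq
    -- e = exp (i t) with 2 t = π + arg q - arg p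
    refine ⟨Complex.exp (((Real.pi + Complex.arg q - Complex.arg p) / 2 : ℝ) * Complex.I),
      Complex.norm_exp_ofReal_mul_I _, ?_⟩
    set t : ℝ := (Real.pi + Complex.arg q - Complex.arg p) / 2 with ht
    have hp' : p = ‖p‖ * Complex.exp (Complex.arg p * Complex.I) :=
      (Complex.norm_mul_exp_arg_mul_I p).symm
    have hq' : q = ‖q‖ * Complex.exp (Complex.arg q * Complex.I) :=
      (Complex.norm_mul_exp_arg_mul_I q).symm
    have hc : conj (Complex.exp (t * Complex.I)) = Complex.exp (-(t * Complex.I)) := by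
      rw [← Complex.exp_conj]
      congr 1
      simp
    have e1 : al x.val * Complex.exp (t * Complex.I) * be y.val
        + be x.val * conj (Complex.exp (t * Complex.I)) * conj (al y.val)
        = (‖q‖ - ‖p‖ : ℝ) * Complex.exp ((Complex.arg q - t : ℝ) * Complex.I) := by
      have e2 : al x.val * Complex.exp (t * Complex.I) * be y.val
          = p * Complex.exp (t * Complex.I) := by rw [hp]; ring
      have e3 : be x.val * conj (Complex.exp (t * Complex.I)) * conj (al y.val)
          = q * Complex.exp (-(t * Complex.I)) := by rw [hq, hc]; ring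
      rw [e2, e3]
      have e4 : p * Complex.exp (t * Complex.I)
          = -(‖p‖ * Complex.exp ((Complex.arg q - t : ℝ) * Complex.I)) := by
        conv_lhs => rw [hp']
        rw [mul_assoc, ← Complex.exp_add]
        have h5 : (Complex.arg p : ℂ) * Complex.I + t * Complex.I
            = (Complex.arg q - t : ℝ) * Complex.I + Real.pi * Complex.I := by
          have h6 : (2 * t : ℝ) = Real.pi + Complex.arg q - Complex.arg p := by rw [ht]; ring
          have h7 : Complex.arg p + t = (Complex.arg q - t) + Real.pi := by linarith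
          have h8 : ((Complex.arg p + t : ℝ) : ℂ) = ((Complex.arg q - t + Real.pi : ℝ) : ℂ) := by
            rw [h7]
          push_cast at h8 ⊢
          rw [← add_mul, ← add_mul, h8]
        rw [h5, Complex.exp_add, Complex.exp_pi_mul_I]
        ring
      have e5 : q * Complex.exp (-(t * Complex.I))
          = ‖q‖ * Complex.exp ((Complex.arg q - t : ℝ) * Complex.I) := by
        conv_lhs => rw [hq']
        rw [mul_assoc, ← Complex.exp_add]
        congr 2
        push_cast
        ring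
      rw [e4, e5]
      push_cast
      ring
    rw [e1, norm_mul, Complex.norm_exp_ofReal_mul_I, mul_one, Complex.norm_real, Real.norm_eq_abs,
      hp, hq, norm_mul, norm_mul, RCLike.norm_conj, abs_sub_comm]
  refine ⟨mk e 0 (by rw [he, norm_zero]; norm_num), ?_, ?_⟩
  · unfold mu
    rw [mk_val, be_ab, norm_zero, Real.arsinh_zero]
  · have h1 : ‖be (x * mk e 0 (by rw [he, norm_zero]; norm_num) * y).val‖
        = |Real.sinh (mu x - mu y)| := by
      rw [be_mul', al_mul', be_mul', mk_val, al_ab, be_ab]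
      simp only [map_zero, mul_zero, zero_add, add_zero]
      rw [h, Real.sinh_sub, cosh_mu, sinh_mu, sinh_mu, cosh_mu, abs_sub_comm]
    unfold mu
    rw [h1, Real.abs_sinh, Real.arsinh_sinh]
    rfl

end F31343D
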