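import Pool.Agent.Lib_MP_f31343_dis.Basic

/-!
# Three representations in `SL(2, ℝ)` all of whose pairs act properly and cocompactly

`Bad Γ ρ`: for all `m` modulo 3 the group `Γ` acts properly discontinuously and cocompactly on
`SL(2, ℝ)` by `γ . u = ρ m γ * u * (ρ (m + 1) γ)⁻¹`.
-/

namespace F31343D

/-- For all `m` modulo 3 the group `Γ` acts properly discontinuously and cocompactly on
`SL(2, ℝ)` by `γ . u = ρ m γ * u * (ρ (m + 1) γ)⁻¹`. -/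
structure Bad (Γ : Type*) [Group Γ] (ρ : Fin 3 → Γ →* SL2) : Prop where
  pd : ∀ (m : Fin 3) (R : ℝ),
    {γ : Γ | ∃ u : SL2, mu u ≤ R ∧ mu (ρ m γ * u * (ρ (m + 1) γ)⁻¹) ≤ R}.Finite
  cc : ∀ m : Fin 3, ∃ c : ℝ, ∀ u : SL2, ∃ γ : Γ, mu ((ρ m γ)⁻¹ * u * ρ (m + 1) γ) ≤ c

variable {Γ : Type*} [Group Γ] {ρ : Fin 3 → Γ →* SL2}

/-- Cocompactness for all pairs. -/
lemma Bad.cc' (h : Bad Γ ρ) {i j : Fin 3} (hij : i ≠ j) :
    ∃ c : ℝ, ∀ u : SL2, ∃ γ : Γ, mu ((ρ i γ)⁻¹ * u * ρ j γ) ≤ c := by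
  have key : ∀ i j : Fin 3, i ≠ j → j = i + 1 ∨ i = j + 1 := by decide
  rcases key i j hij with h1 | h1
  · rw [h1]; exact h.cc i
  · obtain ⟨c, hc⟩ := h.cc j
    refine ⟨c, fun u => ?_⟩
    obtain ⟨γ, hγ⟩ := hc u⁻¹
    refine ⟨γ, ?_⟩
    rw [h1, ← mu_inv]
    convert hγ using 2
    group

/-- Properness for all pairs. -/
lemma Bad.pd' (h : Bad Γ ρ) {i j : Fin 3} (hij : i ≠ j) (R : ℝ) :
    {γ : Γ | ∃ u : SL2, mu u ≤ R ∧ mu (ρ i γ * u * (ρ j γ)⁻¹) ≤ R}.Finite := by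
  have key : ∀ i j : Fin 3, i ≠ j → j = i + 1 ∨ i = j + 1 := by decide
  rcases key i j hij with h1 | h1
  · rw [h1]; exact h.pd i R
  · refine (h.pd j R).subset ?_
    rintro γ ⟨u, hu, hu'⟩
    refine ⟨u⁻¹, by rwa [mu_inv], ?_⟩
    rw [← h1, ← mu_inv]
    convert hu' using 2
    group

/-- `|mu (ρ i γ) - mu (ρ j γ)| → ∞`. -/
lemma Bad.diff (h : Bad Γ ρ) {i j : Fin 3} (hij : i ≠ j) (R : ℝ) :
    {γ : Γ | |mu (ρ i γ) - mu (ρ j γ)| ≤ R}.Finite := by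
  refine (h.pd' hij (max R 0)).subset ?_
  intro γ hγ
  obtain ⟨k, hk, hk'⟩ := exists_rotation (ρ i γ) (ρ j γ)⁻¹
  refine ⟨k, by rw [hk]; exact le_max_right _ _, ?_⟩
  rw [hk', mu_inv]
  exact hγ.out.trans (le_max_left _ _)

end F31343D
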