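import Pool.Agent.Lib_MP_f31343_dis.Groups
import Pool.Agent.Lib_MP_f31343_dis.Core

/-!
# S3: a compact quotient of `G/H` gives three representations
-/

open Matrix F31343
open scoped Matrix.Norms.Operator

namespace F31343D

namespace S3

/-- the element of `G` with the blocks `x` in the position `m` -/
noncomputable def gmU (m : Fin 3) (x : Fin 3 → SL2) : GL I6 ℝ where
  val := bm m (fun r => (x r).val)
  inv := bm (-m) (fun r => adjugate (x (r + m)).val)
  val_inv := by
    rw [bm_mul]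
    have h2 : (fun r => (x r).val * adjugate (x (r - m + m)).val) = fun _ => 1 := by
      funext r
      rw [show r - m + m = r by abel, mul_adjugate, (x r).2, one_smul]
    rw [h2, show -m + m = 0 by abel, bm_one]
  inv_val := by
    rw [bm_mul]
    have h2 : (fun r => adjugate (x (r + m)).val * (x (r - -m)).val) = fun _ => 1 := by
      funext r
      rw [show r - -m = r + m by abel, adjugate_mul, (x (r + m)).2, one_smul]
    rw [h2, show m + -m = 0 by abel, bm_one]

noncomputable def gm (m : Fin 3) (x : Fin 3 → SL2) : bigG.grp :=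
  ⟨gmU m x, ⟨m, fun r => (x r).val, fun r => (x r).2, rfl⟩⟩

lemma gm_val (m : Fin 3) (x : Fin 3 → SL2) : (gm m x).val.val = bm m (fun r => (x r).val) := rfl

lemma gm_mul (m n : Fin 3) (x y : Fin 3 → SL2) :
    gm m x * gm n y = gm (n + m) (fun r => x r * y (r - m)) := by
  apply Subtype.ext
  apply Units.ext
  have h1 : (gm m x * gm n y).val.val = (gm m x).val.val * (gm n y).val.val := rfl
  rw [h1, gm_val, gm_val, gm_val, bm_mul]
  rfl

lemma gm_one : gm 0 (fun _ => 1) = 1 := by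
  apply Subtype.ext
  apply Units.ext
  show bm 0 (fun _ => ((1 : SL2)).val) = 1
  exact bm_one

lemma exists_gm (g : bigG.grp) : ∃ m x, g = gm m x := by
  obtain ⟨m, x, hx, hg⟩ := g.2
  refine ⟨m, fun r => ⟨x r, hx r⟩, ?_⟩
  apply Subtype.ext
  apply Units.ext
  exact hg

lemma gm_inj {m n : Fin 3} {x y : Fin 3 → SL2} (h : gm m x = gm n y) : m = n ∧ x = y := by
  have h1 : bm m (fun r => (x r).val) = bm n (fun r => (y r).val) := by
    have := congrArg (fun g : bigG.grp => g.val.val) h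
    exact this
  obtain ⟨h2, h3⟩ := bm_injective (fun r => (x r).2) h1
  refine ⟨h2, ?_⟩
  funext r
  exact Subtype.ext (congrFun h3 r)

lemma gm_inv (m : Fin 3) (x : Fin 3 → SL2) : (gm m x)⁻¹ = gm (-m) (fun r => (x (r + m))⁻¹) := by
  rw [inv_eq_iff_mul_eq_one, gm_mul]
  have h2 : (fun r => x r * (x (r - m + m))⁻¹) = fun _ => 1 := by
    funext r
    rw [show r - m + m = r by abel, mul_inv_cancel]
  rw [h2, show -m + m = 0 by abel, gm_one]

/-- sum of the blocks in a block column -/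
noncomputable def bcol (c : Fin 3) (g : Matrix I6 I6 ℝ) : Matrix (Fin 2) (Fin 2) ℝ :=
  Matrix.of fun a b => ∑ r : Fin 3, g (r, a) (c, b)

lemma bcol_bm (c m : Fin 3) (x : Fin 3 → Matrix (Fin 2) (Fin 2) ℝ) : bcol c (bm m x) = x (c + m) := by
  ext a b
  simp only [bcol, Matrix.of_apply, bm_apply]
  rw [Finset.sum_ite_eq' Finset.univ (c + m)]
  simp

/-- the invariant of the cosets -/
noncomputable def uu (g : Matrix I6 I6 ℝ) : Matrix (Fin 2) (Fin 2) ℝ := bcol 0 g * adjugate (bcol 1 g)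

lemma uu_gm (m : Fin 3) (x : Fin 3 → SL2) : uu (gm m x).val.val = (x m * (x (m + 1))⁻¹).val := by
  rw [gm_val, uu, bcol_bm, bcol_bm, zero_add, add_comm 1 m, Matrix.SpecialLinearGroup.coe_mul,
    Matrix.SpecialLinearGroup.coe_inv]

/-- displacement of the invariant -/
noncomputable def FF (g : bigG.grp) : ℝ := Real.arsinh ‖be (uu g.val.val)‖

lemma FF_gm (m : Fin 3) (x : Fin 3 → SL2) : FF (gm m x) = mu (x m * (x (m + 1))⁻¹) := by
  unfold FF mu
  rw [uu_gm]

noncomputable abbrev HH : Subgroup bigG.grp := subH.grp.subgroupOf bigG.grp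

lemma gm_mem_HH (x : Fin 3 → SL2) (h : x 0 = x 1) : gm 0 x ∈ HH := by
  rw [Subgroup.mem_subgroupOf]
  exact ⟨fun r => (x r).val, fun r => (x r).2, congrArg Subtype.val h, rfl⟩

lemma exists_of_mem_HH (g : bigG.grp) (h : g ∈ HH) : ∃ x : Fin 3 → SL2, x 0 = x 1 ∧ g = gm 0 x := by
  rw [Subgroup.mem_subgroupOf] at h
  obtain ⟨x, hx, hx', hg⟩ := h
  refine ⟨fun r => ⟨x r, hx r⟩, Subtype.ext hx', ?_⟩
  apply Subtype.ext
  apply Units.ext
  exact hg

lemma FF_eq {g g' : bigG.grp} (h : (QuotientGroup.mk g : bigG.grp ⧸ HH) = QuotientGroup.mk g') :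
    FF g = FF g' := by
  rw [QuotientGroup.eq] at h
  obtain ⟨y, hy, hyg⟩ := exists_of_mem_HH _ h
  obtain ⟨m, x, rfl⟩ := exists_gm g
  have h1 : g' = gm m x * gm 0 y := by rw [← hyg, mul_inv_cancel_left]
  rw [h1, gm_mul, zero_add, FF_gm, FF_gm]
  congr 1
  simp only [sub_self, add_sub_cancel_left]
  rw [hy]
  group

/-- base point of the component `m`, moved by `u` -/
noncomputable def jj (m : Fin 3) (u : SL2) : bigG.grp ⧸ HH :=
  QuotientGroup.mk (gm m (Function.update (fun _ => 1) m u))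

lemma mk_gm (m : Fin 3) (x : Fin 3 → SL2) :
    (QuotientGroup.mk (gm m x) : bigG.grp ⧸ HH) = jj m (x m * (x (m + 1))⁻¹) := by
  unfold jj
  rw [QuotientGroup.eq, gm_inv, gm_mul, show m + -m = 0 by abel]
  apply gm_mem_HH
  have h1 : ∀ n : Fin 3, n + 1 ≠ n := by decide
  have e0 : (0 : Fin 3) - -m = m := by abel
  have e1 : (1 : Fin 3) - -m = m + 1 := by abel
  rw [e0, e1, zero_add, add_comm 1 m, Function.update_self, Function.update_of_ne (h1 m), mul_one,
    inv_mul_cancel_left]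

lemma smul_jj (m : Fin 3) (u : SL2) (y : Fin 3 → SL2) :
    (gm 0 y • jj m u : bigG.grp ⧸ HH) = jj m (y m * u * (y (m + 1))⁻¹) := by
  have h0 : (gm 0 y • jj m u : bigG.grp ⧸ HH) =
      QuotientGroup.mk (gm 0 y * gm m (Function.update (fun _ => 1) m u)) := rfl
  have h1 : ∀ n : Fin 3, n + 1 ≠ n := by decide
  rw [h0, gm_mul, add_zero, mk_gm]
  simp only [sub_zero]
  rw [Function.update_self, Function.update_of_ne (h1 m), mul_one]

/-! ### Topology -/

lemma continuous_bm (m : Fin 3) : Continuous (bm m) := by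
  apply continuous_matrix
  intro i j
  simp only [bm_apply]
  split_ifs
  · fun_prop
  · exact continuous_const

lemma continuous_gm (m : Fin 3) : Continuous (gm m) := by
  apply Continuous.subtype_mk
  rw [isOpenEmbedding_val.isEmbedding.continuous_iff]
  show Continuous (fun x : Fin 3 → SL2 => bm m (fun r => (x r).val))
  apply (continuous_bm m).comp
  apply continuous_pi
  intro r
  exact Matrix.SpecialLinearGroup.isClosedEmbedding_val.continuous.comp (continuous_apply r)

lemma continuous_jj (m : Fin 3) : Continuous (jj m) := by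
  unfold jj
  apply QuotientGroup.continuous_mk.comp
  apply (continuous_gm m).comp
  exact continuous_const.update m continuous_id

lemma continuous_al : Continuous al := by
  have : al = fun x : Matrix (Fin 2) (Fin 2) ℝ => ((((x 0 0 + x 1 1) / 2 : ℝ) : ℂ) +
      (((x 1 0 - x 0 1) / 2 : ℝ) : ℂ) * Complex.I) := by
    funext x
    apply Complex.ext <;> simp [al]
  rw [this]
  fun_prop

lemma continuous_be : Continuous be := by
  have : be = fun x : Matrix (Fin 2) (Fin 2) ℝ => ((((x 0 0 - x 1 1) / 2 : ℝ) : ℂ) +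
      (((x 1 0 + x 0 1) / 2 : ℝ) : ℂ) * Complex.I) := by
    funext x
    apply Complex.ext <;> simp [be]
  rw [this]
  fun_prop

lemma continuous_bcol (c : Fin 3) : Continuous (bcol c) := by
  apply continuous_matrix
  intro i j
  simp only [bcol, Matrix.of_apply]
  fun_prop

lemma continuous_FF : Continuous FF := by
  unfold FF
  apply Real.continuous_arsinh.comp
  apply continuous_norm.comp
  apply continuous_be.comp
  have h1 : Continuous uu := by
    unfold uu
    exact (continuous_bcol 0).mul (continuous_bcol 1).matrix_adjugate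
  apply h1.comp
  exact isOpenEmbedding_val.continuous.comp continuous_subtype_val

lemma isCompact_mu (R : ℝ) : IsCompact {u : SL2 | mu u ≤ R} := by
  set C : ℝ := 1 + 2 * Real.sinh R with hC
  have h1 : IsCompact {x : Matrix (Fin 2) (Fin 2) ℝ | ∀ i j, x i j ∈ Set.Icc (-C) C} := by
    have h2 : IsCompact (Set.univ.pi fun _ : Fin 2 => Set.univ.pi fun _ : Fin 2 => Set.Icc (-C) C) :=
      isCompact_univ_pi fun _ => isCompact_univ_pi fun _ => isCompact_Icc
    have h3 : {x : Fin 2 → Fin 2 → ℝ | ∀ i j, x i j ∈ Set.Icc (-C) C} =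
        (Set.univ.pi fun _ : Fin 2 => Set.univ.pi fun _ : Fin 2 => Set.Icc (-C) C) := by
      ext x
      simp only [Set.mem_ofPred_eq, Set.mem_pi, Set.mem_univ, true_implies]
    rw [← h3] at h2
    exact h2
  have h3 := Matrix.SpecialLinearGroup.isClosedEmbedding_val.isCompact_preimage h1
  refine h3.of_isClosed_subset ?_ ?_
  · apply isClosed_le _ continuous_const
    unfold mu
    exact Real.continuous_arsinh.comp (continuous_norm.comp (continuous_be.comp
      Matrix.SpecialLinearGroup.isClosedEmbedding_val.continuous))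
  · intro u hu
    have hb : ‖be u.val‖ ≤ Real.sinh R := (mu_le_iff u R).1 hu
    have ha : ‖al u.val‖ ≤ 1 + Real.sinh R := by
      have h4 := norm_sq u
      have h5 := norm_nonneg (be u.val)
      have h6 := norm_nonneg (al u.val)
      nlinarith
    have a1 := Complex.abs_re_le_norm (al u.val)
    have a2 := Complex.abs_im_le_norm (al u.val)
    have b1 := Complex.abs_re_le_norm (be u.val)
    have b2 := Complex.abs_im_le_norm (be u.val)
    have hA1 := abs_le.1 a1
    have hA2 := abs_le.1 a2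
    have hB1 := abs_le.1 b1
    have hB2 := abs_le.1 b2
    simp only [al, be] at hA1 hA2 hB1 hB2
    have ha' : ‖al u.val‖ ≤ 1 + Real.sinh R := ha
    have hb' : ‖be u.val‖ ≤ Real.sinh R := hb
    simp only [al] at ha'
    simp only [be] at hb'
    intro i j
    fin_cases i <;> fin_cases j <;> constructor <;> simp <;> linarith [hA1.1, hA1.2, hA2.1, hA2.2, hB1.1, hB1.2,
      hB2.1, hB2.2]

/-! ### The subgroup of the elements of type `0` -/

/-- elements in the position `0` -/
noncomputable def typ0 : Subgroup bigG.grp where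
  carrier := {g | ∃ x, g = gm 0 x}
  one_mem' := ⟨fun _ => 1, gm_one.symm⟩
  mul_mem' := by
    rintro a b ⟨x, rfl⟩ ⟨y, rfl⟩
    exact ⟨_, gm_mul 0 0 x y⟩
  inv_mem' := by
    rintro a ⟨x, rfl⟩
    exact ⟨_, by rw [gm_inv, neg_zero]⟩

lemma bcol_typ0 (r : Fin 3) (x : Fin 3 → SL2) : bcol r (gm 0 x).val.val = (x r).val := by
  rw [gm_val, bcol_bm, add_zero]

lemma typ0_det (r : Fin 3) (g : typ0) : (bcol r g.1.val.val).det = 1 := by
  obtain ⟨g, x, rfl⟩ := g
  rw [bcol_typ0]
  exact (x r).2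

/-- the representations -/
noncomputable def rho (r : Fin 3) : typ0 →* SL2 where
  toFun g := ⟨bcol r g.1.val.val, typ0_det r g⟩
  map_one' := by
    apply Subtype.ext
    show bcol r ((1 : bigG.grp)).val.val = ((1 : SL2)).val
    rw [← gm_one, bcol_typ0]
  map_mul' := by
    rintro ⟨g, x, rfl⟩ ⟨h, y, rfl⟩
    apply Subtype.ext
    rw [Matrix.SpecialLinearGroup.coe_mul]
    show bcol r ((gm 0 x * gm 0 y)).val.val = bcol r (gm 0 x).val.val * bcol r (gm 0 y).val.val
    rw [gm_mul, add_zero, bcol_typ0, bcol_typ0, bcol_typ0, Matrix.SpecialLinearGroup.coe_mul, sub_zero]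

lemma rho_gm (r : Fin 3) (x : Fin 3 → SL2) (h : gm 0 x ∈ typ0) : rho r ⟨gm 0 x, h⟩ = x r :=
  Subtype.ext (bcol_typ0 r x)

end S3

open S3 in
/-- S3. -/
theorem exists_bad (h : AdmitsCompactQuotients bigG subH) :
    ∃ (Γ : Type) (_ : Group Γ) (ρ : Fin 3 → Γ →* SL2), Bad Γ ρ := by
  obtain ⟨Γ, -, hpd, hcc⟩ := h
  refine ⟨(Γ ⊓ typ0 : Subgroup bigG.grp), inferInstance,
    fun r => (rho r).comp (Subgroup.inclusion inf_le_right), ?_, ?_⟩
  · intro m R
    have hK : IsCompact (jj m '' {u : SL2 | mu u ≤ R}) := (isCompact_mu R).image (continuous_jj m)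
    have hf := hpd.finite_disjoint_inter_image hK hK
    refine (hf.preimage (Subgroup.inclusion_injective (inf_le_left : Γ ⊓ typ0 ≤ Γ)).injOn).subset ?_
    rintro ⟨γ, hγ1, hγ2⟩ ⟨u, hu1, hu2⟩
    obtain ⟨x, rfl⟩ := hγ2
    have hu2' : mu (x m * u * (x (m + 1))⁻¹) ≤ R := by
      have e1 : (rho m) ⟨gm 0 x, ⟨x, rfl⟩⟩ = x m := rho_gm m x _
      have e2 : (rho (m + 1)) ⟨gm 0 x, ⟨x, rfl⟩⟩ = x (m + 1) := rho_gm (m + 1) x _
      rw [← e1, ← e2]
      exact hu2
    rw [Set.mem_preimage]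
    show Set.Nonempty _
    refine ⟨jj m (x m * u * (x (m + 1))⁻¹), ⟨jj m u, ⟨u, hu1, rfl⟩, ?_⟩, ⟨_, hu2', rfl⟩⟩
    exact smul_jj m u x
  · intro m
    -- the open sets `FF < n` cover `G/H`
    have hopen : ∀ n : ℕ, IsOpen ((QuotientGroup.mk : bigG.grp → bigG.grp ⧸ HH) '' {g | FF g < n}) := by
      intro n
      apply QuotientGroup.isOpenMap_coe
      exact isOpen_lt continuous_FF continuous_const
    obtain ⟨n, hn⟩ : ∃ n : ℕ, ∀ x : bigG.grp ⧸ HH, ∃ γ ∈ Γ, ∃ g : bigG.grp, FF g < n ∧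
        x = γ • (QuotientGroup.mk g : bigG.grp ⧸ HH) := by
      have hcs : ContinuousConstSMul Γ (bigG.grp ⧸ HH) :=
        ⟨fun γ => continuous_const_smul (γ : bigG.grp)⟩
      let _ := MulAction.orbitRel Γ (bigG.grp ⧸ HH)
      have hπ : IsOpenMap (Quotient.mk' : (bigG.grp ⧸ HH) → Quotient (MulAction.orbitRel Γ (bigG.grp ⧸ HH))) :=
        isOpenMap_quotient_mk'_mul
      have hcc' : CompactSpace (Quotient (MulAction.orbitRel Γ (bigG.grp ⧸ HH))) := hcc
      obtain ⟨n, hn⟩ := (isCompact_univ (X := Quotient (MulAction.orbitRel Γ (bigG.grp ⧸ HH)))).elim_directed_cover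
        (fun n : ℕ => (Quotient.mk' : (bigG.grp ⧸ HH) → Quotient (MulAction.orbitRel Γ (bigG.grp ⧸ HH))) ''
          ((QuotientGroup.mk : bigG.grp → bigG.grp ⧸ HH) '' {g | FF g < n}))
        (fun n => hπ _ (hopen n)) (by
          intro q _
          obtain ⟨x, rfl⟩ := Quotient.exists_rep q
          obtain ⟨g, rfl⟩ := QuotientGroup.mk_surjective x
          obtain ⟨n, hn⟩ := exists_nat_gt (FF g)
          exact Set.mem_iUnion.2 ⟨n, _, ⟨g, hn, rfl⟩, rfl⟩) (by
          intro a b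
          refine ⟨max a b, ?_, ?_⟩
          · rintro _ ⟨_, ⟨g, hg, rfl⟩, rfl⟩
            have hg' : FF g < a := hg
            refine ⟨_, ⟨g, ?_, rfl⟩, rfl⟩
            show FF g < ((max a b : ℕ) : ℝ)
            push_cast
            exact hg'.trans_le (le_max_left _ _)
          · rintro _ ⟨_, ⟨g, hg, rfl⟩, rfl⟩
            have hg' : FF g < b := hg
            refine ⟨_, ⟨g, ?_, rfl⟩, rfl⟩
            show FF g < ((max a b : ℕ) : ℝ)
            push_cast
            exact hg'.trans_le (le_max_right _ _))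
      refine ⟨n, fun x => ?_⟩
      obtain ⟨_, ⟨g, hg, rfl⟩, hgx⟩ := hn (Set.mem_univ (Quotient.mk' x))
      have h1 : (MulAction.orbitRel Γ (bigG.grp ⧸ HH)) x (QuotientGroup.mk g) :=
        (Quotient.exact hgx.symm)
      rw [MulAction.orbitRel_apply] at h1
      obtain ⟨γ, hγ⟩ := h1
      exact ⟨γ.1, γ.2, g, hg, hγ.symm⟩
    have hrep : ∀ t : Fin 3, ∃ z : Fin 3 → SL2, (∃ y, gm t y ∈ Γ) → gm t z ∈ Γ := by
      intro t
      by_cases hy : ∃ y, gm t y ∈ Γ
      · obtain ⟨y, hy⟩ := hy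
        exact ⟨y, fun _ => hy⟩
      · exact ⟨fun _ => 1, fun h => absurd h hy⟩
    choose z hz using hrep
    have hsum : ∀ t r : Fin 3, mu (z t r) ≤ ∑ t : Fin 3, ∑ r : Fin 3, mu (z t r) := by
      intro t r
      refine le_trans (Finset.single_le_sum (f := fun r => mu (z t r)) (fun r _ => mu_nonneg _) (Finset.mem_univ r)) ?_
      exact Finset.single_le_sum (f := fun t => ∑ r : Fin 3, mu (z t r))
        (fun t _ => Finset.sum_nonneg fun r _ => mu_nonneg _) (Finset.mem_univ t)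
    refine ⟨n + 2 * ∑ t : Fin 3, ∑ r : Fin 3, mu (z t r), fun u => ?_⟩
    obtain ⟨γ, hγ, g, hg, hx⟩ := hn (jj m u)
    obtain ⟨t, y, rfl⟩ := exists_gm γ
    obtain ⟨m', x', rfl⟩ := exists_gm g
    have hzt := hz t ⟨y, hγ⟩
    obtain ⟨w, hw⟩ : ∃ w, gm t y * (gm t (z t))⁻¹ = gm 0 w :=
      ⟨_, by rw [gm_inv, gm_mul, neg_add_cancel]⟩
    have hwΓ : gm 0 w ∈ Γ := by
      rw [← hw]
      exact Γ.mul_mem hγ (Γ.inv_mem hzt)
    refine ⟨⟨gm 0 w, hwΓ, ⟨w, rfl⟩⟩, ?_⟩
    have e1 : (rho m) ⟨gm 0 w, ⟨w, rfl⟩⟩ = w m := rho_gm m w _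
    have e2 : (rho (m + 1)) ⟨gm 0 w, ⟨w, rfl⟩⟩ = w (m + 1) := rho_gm (m + 1) w _
    show mu ((rho m ⟨gm 0 w, ⟨w, rfl⟩⟩)⁻¹ * u * rho (m + 1) ⟨gm 0 w, ⟨w, rfl⟩⟩) ≤ _
    rw [e1, e2]
    have h1 : jj m ((w m)⁻¹ * u * w (m + 1)) =
        (QuotientGroup.mk (gm t (z t) * gm m' x') : bigG.grp ⧸ HH) := by
      have h2 := smul_jj m u (fun r => (w r)⁻¹)
      rw [inv_inv] at h2
      rw [← h2]
      have h3 : gm 0 (fun r => (w r)⁻¹) = (gm 0 w)⁻¹ := by
        rw [gm_inv, neg_zero]
        simp only [add_zero]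
      rw [h3, hx, inv_smul_eq_iff]
      have h4 : gm t y = gm 0 w * gm t (z t) := by
        rw [← hw, inv_mul_cancel_right]
      have h5 : gm 0 w • (QuotientGroup.mk (gm t (z t) * gm m' x') : bigG.grp ⧸ HH) =
          QuotientGroup.mk (gm 0 w * (gm t (z t) * gm m' x')) := rfl
      have h6 : gm t y • (QuotientGroup.mk (gm m' x') : bigG.grp ⧸ HH) =
          QuotientGroup.mk (gm t y * gm m' x') := rfl
      rw [h5, h6, h4, mul_assoc]
    have h2 := FF_eq (g := gm m (Function.update (fun _ => 1) m ((w m)⁻¹ * u * w (m + 1)))) h1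
    have hne : ∀ n : Fin 3, n + 1 ≠ n := by decide
    rw [FF_gm, Function.update_self, Function.update_of_ne (hne m), inv_one, mul_one, gm_mul, FF_gm] at h2
    rw [h2]
    have h3 : FF (gm m' x') < n := hg
    rw [FF_gm] at h3
    have h4 : z t (m' + t) * x' (m' + t - t) * (z t (m' + t + 1) * x' (m' + t + 1 - t))⁻¹ =
        z t (m' + t) * (x' m' * (x' (m' + 1))⁻¹) * (z t (m' + t + 1))⁻¹ := by
      rw [show m' + t - t = m' by abel, show m' + t + 1 - t = m' + 1 by abel]
      group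
    rw [h4]
    have h5 := mu_mul_le (z t (m' + t) * (x' m' * (x' (m' + 1))⁻¹)) (z t (m' + t + 1))⁻¹
    have h6 := mu_mul_le (z t (m' + t)) (x' m' * (x' (m' + 1))⁻¹)
    rw [mu_inv] at h5
    have h7 := hsum t (m' + t)
    have h8 := hsum t (m' + t + 1)
    linarith

end F31343D
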