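import Pool.Agent.Lib_MP_f31343_dis.FibE

/-!
# S2: the local geometric fibration
-/

open F31343 Topology
open scoped Matrix.Norms.Operator ContDiff

namespace F31343D

/-- S2. -/
theorem exists_fibration : Nonempty (LocalGeometricFibration bigG subH) := by
  obtain ⟨L⟩ : Nonempty (ℂ ≃L[ℝ] EuclideanSpace ℝ (Fin (codim bigG subH))) := by
    rw [codim_eq]
    exact ⟨Complex.orthonormalBasisOneI.repr.toContinuousLinearEquiv⟩
  refine ⟨{
    U := S2.UU
    isOpen := S2.UU_isOpen
    nonempty := S2.UU_nonempty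
    mul_mem := fun g hg h hh => S2.UU_mul_mem hg hh
    π := fun M => L (S2.pic M)
    smooth := fun g hg => L.contDiff.contDiffAt.comp _ (S2.pic_contDiffAt hg)
    fibre := ?_
    submersion := ?_
    proper := ?_ }⟩
  · intro g hg
    have hz : ‖S2.pic g.val‖ < 1 / 4 := by
      obtain ⟨m, c, h1, -⟩ := S2.exists_c hg
      exact h1
    refine ⟨S2.g0 _ hz, S2.UU_sub ?_, fun g' => ?_⟩
    · exact ((S2.fib_iff hz (S2.g0 _ hz)).mpr ⟨1, bigG.K.one_mem, 1, subH.grp.one_mem,
        by rw [mul_one, mul_one]⟩).1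
    · rw [L.injective.eq_iff]
      exact S2.fib_iff hz g'
  · intro g hg v
    obtain ⟨A, hA, X, hX, h⟩ := S2.submersion hg (L.symm v)
    refine ⟨A, hA, X, hX, ?_⟩
    have hd : DifferentiableAt ℝ S2.pic g.val := (S2.pic_contDiffAt hg).differentiableAt (by simp)
    have h1 : HasFDerivAt (L ∘ S2.pic)
        ((L : ℂ →L[ℝ] EuclideanSpace ℝ (Fin (codim bigG subH))).comp (fderiv ℝ S2.pic g.val))
        g.val := HasFDerivAt.comp g.val L.hasFDerivAt hd.hasFDerivAt
    have h2 : (fun M => L (S2.pic M)) = L ∘ S2.pic := rfl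
    unfold dirDeriv
    rw [h2, h1.fderiv]
    show L (fderiv ℝ S2.pic g.val (g.val * (A + X))) = v
    rw [h]
    exact L.apply_symm_apply v
  · intro g hg
    obtain ⟨R, hR, -, C, hC, hCU, h⟩ := S2.UU_proper hg
    refine ⟨{v | ‖L.symm v‖ < R}, ?_, C, hC, hCU, fun g' hg' hv => h g' hg' ?_⟩
    · have hcont : Continuous fun v => ‖L.symm v‖ := L.symm.continuous.norm
      refine (isOpen_lt hcont continuous_const).mem_nhds ?_
      show ‖L.symm (L (S2.pic g.val))‖ < R
      rw [L.symm_apply_apply]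
      exact hR
    · have hv' : ‖L.symm (L (S2.pic g'.val))‖ < R := hv
      rwa [L.symm_apply_apply] at hv'

end F31343D
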