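import Pool.Agent.Lib_MP_f31343_dis.FibDefs

/-!
# S2, part A: the equation `u p_(m+1) = p_m`
-/

open Matrix ComplexConjugate F31343
open scoped Matrix.Norms.Operator ContDiff

namespace F31343D

/-- a square root, smooth on the slit plane -/
noncomputable def csq (x : ℂ) : ℂ := Complex.exp (Complex.log x / 2)

lemma csq_sq {x : ℂ} (hx : x ≠ 0) : csq x ^ 2 = x := by
  unfold csq
  rw [← Complex.exp_nat_mul]
  rw [show ((2 : ℕ) : ℂ) * (Complex.log x / 2) = Complex.log x by push_cast; ring]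
  exact Complex.exp_log hx

lemma csq_re_pos {x : ℂ} (hx : x ∈ Complex.slitPlane) : 0 < (csq x).re := by
  unfold csq
  rw [Complex.exp_re]
  have e : (Complex.log x / 2).im = Complex.arg x / 2 := by
    rw [show Complex.log x / 2 = ((1 / 2 : ℝ) : ℂ) * Complex.log x by push_cast; ring,
      Complex.im_ofReal_mul, Complex.log_im]
    ring
  rw [e]
  refine mul_pos (Real.exp_pos _) (Real.cos_pos_of_mem_Ioo ⟨?_, ?_⟩)
  · have h := Complex.neg_pi_lt_arg x
    linarith
  · have h := (Complex.arg_le_pi x).lt_of_ne (Complex.slitPlane_arg_ne_pi hx)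
    linarith

lemma csq_eq {x y : ℂ} (hy : 0 < y.re) (h : y ^ 2 = x) (hx : x ∈ Complex.slitPlane) : csq x = y := by
  have hx0 : x ≠ 0 := Complex.slitPlane_ne_zero hx
  have h1 : csq x ^ 2 = y ^ 2 := by rw [csq_sq hx0, h]
  rcases sq_eq_sq_iff_eq_or_eq_neg.mp h1 with h2 | h2
  · exact h2
  · have h3 := csq_re_pos hx
    rw [h2, Complex.neg_re] at h3
    linarith

lemma contDiffAt_csq {x : ℂ} (hx : x ∈ Complex.slitPlane) : ContDiffAt ℝ ∞ csq x := by
  unfold csq
  have h1 : ContDiffAt ℝ ∞ Complex.log x := (Complex.contDiffAt_log hx).restrict_scalars ℝ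
  exact (h1.div_const 2).cexp

/-- the small root of `conj b z ^ 2 / 2 + w z = b` -/
noncomputable def sol (w b : ℂ) : ℂ :=
  2 * b / (w * (1 + csq (1 + 2 * (b * conj b) / w ^ 2)))

lemma w_ne {w b : ℂ} (h : 2 * ‖b‖ ^ 2 < ‖w‖ ^ 2) : w ≠ 0 := by
  rintro rfl
  rw [norm_zero] at h
  nlinarith [sq_nonneg ‖b‖]

lemma radicand_mem {w b : ℂ} (h : 2 * ‖b‖ ^ 2 < ‖w‖ ^ 2) :
    1 + 2 * (b * conj b) / w ^ 2 ∈ Complex.slitPlane := by
  have hw : 0 < ‖w‖ ^ 2 := by
    have := norm_pos_iff.mpr (w_ne h)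
    positivity
  have h1 : ‖2 * (b * conj b) / w ^ 2‖ < 1 := by
    rw [norm_div, norm_mul, norm_mul, norm_pow, RCLike.norm_conj, div_lt_one hw]
    have h2 : ‖(2 : ℂ)‖ = 2 := by norm_num
    rw [h2]
    nlinarith [sq_nonneg ‖b‖]
  rw [Complex.mem_slitPlane_iff]
  left
  rw [Complex.add_re, Complex.one_re]
  have h3 := Complex.abs_re_le_norm (2 * (b * conj b) / w ^ 2)
  have h4 := neg_abs_le (2 * (b * conj b) / w ^ 2).re
  linarith

lemma one_add_csq_ne {x : ℂ} (hx : x ∈ Complex.slitPlane) : 1 + csq x ≠ 0 := by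
  intro h
  have h1 := csq_re_pos hx
  have h2 : (1 + csq x).re = 0 := by rw [h, Complex.zero_re]
  rw [Complex.add_re, Complex.one_re] at h2
  linarith

/-- `sol` is a solution -/
lemma sol_spec {w b : ℂ} (h : 2 * ‖b‖ ^ 2 < ‖w‖ ^ 2) :
    conj b * sol w b ^ 2 / 2 + w * sol w b = b := by
  have hw := w_ne h
  have hx := radicand_mem h
  have h1 := csq_sq (Complex.slitPlane_ne_zero hx)
  have h2 := one_add_csq_ne hx
  unfold sol
  set σ := csq (1 + 2 * (b * conj b) / w ^ 2) with hσ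
  have h3 : 2 * (b * conj b) = w ^ 2 * (σ ^ 2 - 1) := by
    rw [h1]
    field_simp
    ring
  have h4 : conj b * (2 * b / (w * (1 + σ))) ^ 2 / 2 =
      b * (2 * (b * conj b)) / (w * (1 + σ)) ^ 2 := by
    rw [div_pow]
    ring
  rw [h4, h3]
  field_simp
  ring

/-- size of `b` for a small solution -/
lemma dom_of_eq {w b z : ℂ} (hw : w ≠ 0) (hz : ‖z‖ < 1 / 4)
    (h : conj b * z ^ 2 / 2 + w * z = b) : 4 * ‖b‖ ^ 2 < ‖w‖ ^ 2 := by
  have hw' : 0 < ‖w‖ := norm_pos_iff.mpr hw
  have h1 : ‖b‖ ≤ ‖b‖ * ‖z‖ ^ 2 / 2 + ‖w‖ * ‖z‖ := by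
    calc ‖b‖ = ‖conj b * z ^ 2 / 2 + w * z‖ := by rw [h]
      _ ≤ ‖conj b * z ^ 2 / 2‖ + ‖w * z‖ := norm_add_le _ _
      _ = _ := by
        have h2 : ‖(2 : ℂ)‖ = 2 := by norm_num
        rw [norm_mul, norm_div, norm_mul, norm_pow, RCLike.norm_conj, h2]
  have hz0 := norm_nonneg z
  have hb0 := norm_nonneg b
  have h2 : ‖z‖ ^ 2 ≤ 1 / 16 := by nlinarith
  have h3 : ‖b‖ * ‖z‖ ^ 2 ≤ ‖b‖ * (1 / 16) := mul_le_mul_of_nonneg_left h2 hb0
  have h4 : ‖w‖ * ‖z‖ ≤ ‖w‖ * (1 / 4) := mul_le_mul_of_nonneg_left hz.le hw'.le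
  have h5 : ‖b‖ ≤ 8 / 31 * ‖w‖ := by linarith
  nlinarith

/-- uniqueness of the small solution -/
lemma sol_unique {w b z : ℂ} (hw : w ≠ 0) (hz : ‖z‖ < 1 / 4)
    (h : conj b * z ^ 2 / 2 + w * z = b) : sol w b = z := by
  have hd := dom_of_eq hw hz h
  have hw' : 0 < ‖w‖ := norm_pos_iff.mpr hw
  have hx := radicand_mem (w := w) (b := b) (by nlinarith [sq_nonneg ‖b‖])
  have hb : ‖b‖ < ‖w‖ := by
    have hb0 := norm_nonneg b
    nlinarith
  have h1 : ‖conj b * z / w‖ < 1 := by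
    rw [norm_div, norm_mul, RCLike.norm_conj, div_lt_one hw']
    have hb0 := norm_nonneg b
    calc ‖b‖ * ‖z‖ ≤ ‖b‖ * 1 := mul_le_mul_of_nonneg_left (by linarith) hb0
      _ < ‖w‖ := by linarith
  have hre : 0 < (1 + conj b * z / w).re := by
    rw [Complex.add_re, Complex.one_re]
    have h3 := Complex.abs_re_le_norm (conj b * z / w)
    have h4 := neg_abs_le (conj b * z / w).re
    linarith
  have hsq : (1 + conj b * z / w) ^ 2 = 1 + 2 * (b * conj b) / w ^ 2 := by
    have e : 2 * (b * conj b) = 2 * conj b * (conj b * z ^ 2 / 2 + w * z) := by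
      rw [h]
      ring
    rw [e]
    field_simp
    ring
  have hs := csq_eq hre hsq hx
  have hne : 1 + csq (1 + 2 * (b * conj b) / w ^ 2) ≠ 0 := one_add_csq_ne hx
  unfold sol
  rw [div_eq_iff (mul_ne_zero hw hne), hs]
  calc 2 * b = 2 * (conj b * z ^ 2 / 2 + w * z) := by rw [h]
    _ = z * (w * (1 + (1 + conj b * z / w))) := by
      field_simp
      ring

/-- `sol` is smooth -/
lemma contDiffAt_sol {E : Type*} [NormedAddCommGroup E]
    [NormedSpace ℝ E] {f g : E → ℂ} {x : E} (hf : ContDiffAt ℝ ∞ f x) (hg : ContDiffAt ℝ ∞ g x)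
    (h : 2 * ‖g x‖ ^ 2 < ‖f x‖ ^ 2) : ContDiffAt ℝ ∞ (fun y => sol (f y) (g y)) x := by
  have hw := w_ne h
  have hx := radicand_mem h
  have h2 := one_add_csq_ne hx
  have hconj : ContDiffAt ℝ ∞ (fun y => conj (g y)) x :=
    (Complex.conjCLE.contDiff.contDiffAt).comp x hg
  have hrad : ContDiffAt ℝ ∞ (fun y => 1 + 2 * (g y * conj (g y)) / f y ^ 2) x := by
    simp only [div_eq_mul_inv]
    exact contDiffAt_const.add ((contDiffAt_const.mul (hg.mul hconj)).mul
      ((hf.pow 2).inv (pow_ne_zero 2 hw)))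
  have hc' : ContDiffAt ℝ ∞ (fun y => csq (1 + 2 * (g y * conj (g y)) / f y ^ 2)) x :=
    ContDiffAt.comp (g := csq) x (contDiffAt_csq hx) hrad
  unfold sol
  simp only [div_eq_mul_inv] at hc' h2 ⊢
  exact (contDiffAt_const.mul hg).mul ((hf.mul (contDiffAt_const.add hc')).inv (mul_ne_zero hw h2))

lemma f0_eq (u : M2) : f0 u = sol (ww u) (be u) := rfl

/-- `al` as a continuous linear map -/
noncomputable def alL : M2 →L[ℝ] ℂ := LinearMap.toContinuousLinearMap
  { toFun := al
    map_add' := fun x y => by apply Complex.ext <;> simp [al] <;> ring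
    map_smul' := fun r x => by apply Complex.ext <;> simp [al] <;> ring }

/-- `be` as a continuous linear map -/
noncomputable def beL : M2 →L[ℝ] ℂ := LinearMap.toContinuousLinearMap
  { toFun := be
    map_add' := fun x y => by apply Complex.ext <;> simp [be] <;> ring
    map_smul' := fun r x => by apply Complex.ext <;> simp [be] <;> ring }

lemma contDiffAt_al (u : M2) : ContDiffAt ℝ ∞ al u := alL.contDiff.contDiffAt

lemma contDiffAt_be (u : M2) : ContDiffAt ℝ ∞ be u := beL.contDiff.contDiffAt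

lemma contDiffAt_conj_al (u : M2) : ContDiffAt ℝ ∞ (fun v => conj (al v)) u :=
  (Complex.conjCLE.contDiff.contDiffAt).comp u (contDiffAt_al u)

lemma contDiffAt_ww (u : M2) : ContDiffAt ℝ ∞ ww u := by
  unfold ww
  exact (contDiffAt_conj_al u).sub ((contDiffAt_al u).div_const 2)

lemma al_ge {u : M2} (hu : u.det = 1) : 1 ≤ ‖al u‖ := by
  have h := det_eq u
  rw [hu] at h
  nlinarith [norm_nonneg (al u), sq_nonneg ‖be u‖]

lemma al_ne {u : M2} (hu : u.det = 1) : al u ≠ 0 := by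
  intro h
  have := al_ge hu
  rw [h, norm_zero] at this
  linarith

lemma ww_ne {u : M2} (hu : u.det = 1) : ww u ≠ 0 := by
  intro h
  have h1 := al_ge hu
  have h2 : conj (al u) = al u / 2 := by
    unfold ww at h
    exact sub_eq_zero.mp h
  have h3 : ‖al u‖ = ‖al u‖ / 2 := by
    have h4 : ‖conj (al u)‖ = ‖al u / 2‖ := by rw [h2]
    have h5 : ‖(2 : ℂ)‖ = 2 := by norm_num
    rwa [RCLike.norm_conj, norm_div, h5] at h4
  linarith

/-- Uniqueness.  For `m = 0` put `r = 1 + conj (be u) z / ww u`; then `r² = 1 + 2 |be u|² / ww u²`,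
`Re r > 0` and `ww u * z * (1 + r) = 2 be u`. -/
theorem ff_unique (m : Fin 3) (u : M2) (hu : u.det = 1) (z : ℂ) (hz : ‖z‖ < 1 / 4)
    (h : Moves u (pt z m) (pt z (m + 1))) : Dom m u ∧ ff m u = z := by
  fin_cases m
  · have h1 : al u * (z / 2) + be u = z * (conj (be u) * (z / 2) + conj (al u)) := h
    have h2 : conj (be u) * z ^ 2 / 2 + ww u * z = be u := by
      unfold ww
      linear_combination -h1
    have h3 := dom_of_eq (ww_ne hu) hz h2
    refine ⟨fun _ => ?_, ?_⟩
    · nlinarith [sq_nonneg ‖be u‖]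
    · exact sol_unique (ww_ne hu) hz h2
  · have h1 : al u * 0 + be u = z / 2 * (conj (be u) * 0 + conj (al u)) := h
    have hc : conj (al u) ≠ 0 := (map_ne_zero _).mpr (al_ne hu)
    refine ⟨fun h0 => absurd h0 (by decide), ?_⟩
    change 2 * be u / conj (al u) = z
    rw [div_eq_iff hc]
    linear_combination 2 * h1
  · have h1 : al u * z + be u = 0 * (conj (be u) * z + conj (al u)) := h
    refine ⟨fun h0 => absurd h0 (by decide), ?_⟩
    change - be u / al u = z
    rw [div_eq_iff (al_ne hu)]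
    linear_combination -h1

/-- Existence. -/
theorem ff_moves (m : Fin 3) (u : M2) (hu : u.det = 1) (hd : Dom m u) :
    Moves u (pt (ff m u) m) (pt (ff m u) (m + 1)) := by
  fin_cases m
  · have h1 := sol_spec (hd rfl)
    change al u * (sol (ww u) (be u) / 2) + be u =
      sol (ww u) (be u) * (conj (be u) * (sol (ww u) (be u) / 2) + conj (al u))
    set z := sol (ww u) (be u) with hz
    unfold ww at h1
    linear_combination -h1
  · have hc : conj (al u) ≠ 0 := (map_ne_zero _).mpr (al_ne hu)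
    change al u * 0 + be u = 2 * be u / conj (al u) / 2 * (conj (be u) * 0 + conj (al u))
    field_simp
    ring
  · have hc := al_ne hu
    change al u * (- be u / al u) + be u = 0 * (conj (be u) * (- be u / al u) + conj (al u))
    field_simp
    ring

/-- Smoothness. -/
theorem ff_contDiffAt (m : Fin 3) (u : M2) (hu : u.det = 1) (hd : Dom m u) :
    ContDiffAt ℝ ∞ (ff m) u := by
  fin_cases m
  · exact contDiffAt_sol (contDiffAt_ww u) (contDiffAt_be u) (hd rfl)
  · have hc : conj (al u) ≠ 0 := (map_ne_zero _).mpr (al_ne hu)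
    change ContDiffAt ℝ ∞ (fun v => 2 * be v / conj (al v)) u
    simp only [div_eq_mul_inv]
    exact (contDiffAt_const.mul (contDiffAt_be u)).mul ((contDiffAt_conj_al u).inv hc)
  · change ContDiffAt ℝ ∞ (fun v => - be v / al v) u
    simp only [div_eq_mul_inv]
    exact (contDiffAt_be u).neg.mul ((contDiffAt_al u).inv (al_ne hu))

/-- The coefficients are continuous, for the openness of `Dom`. -/
theorem continuous_al : Continuous al := alL.continuous

theorem continuous_be : Continuous be := beL.continuous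

end F31343D
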