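import Pool.Agent.Lib_MP_f31343_dis.FibDefs

/-!
# S2, part B: the matrices `TT z`, compactness
-/

open Matrix ComplexConjugate F31343
open scoped Matrix.Norms.Operator ContDiff

namespace F31343D

/-- the factor `1 / sqrt (1 - |p|²)` -/
private noncomputable def tn (p : ℂ) : ℝ := (Real.sqrt (1 - ‖p‖ ^ 2))⁻¹

private lemma tn_pos {p : ℂ} (hp : ‖p‖ < 1) : 0 < tn p := by
  unfold tn
  have : ‖p‖ ^ 2 < 1 := by nlinarith [norm_nonneg p]
  exact inv_pos.mpr (Real.sqrt_pos.mpr (by linarith))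

private lemma tn_sq {p : ℂ} (hp : ‖p‖ < 1) : tn p ^ 2 * (1 - ‖p‖ ^ 2) = 1 := by
  unfold tn
  have : ‖p‖ ^ 2 < 1 := by nlinarith [norm_nonneg p]
  rw [inv_pow, Real.sq_sqrt (by linarith)]
  exact inv_mul_cancel₀ (by linarith)

private lemma al_TT (p : ℂ) : al (TT p) = tn p := al_ab _ _

private lemma be_TT (p : ℂ) : be (TT p) = tn p * p := be_ab _ _

theorem TT_det {z : ℂ} (hz : ‖z‖ < 1) : (TT z).det = 1 := by
  rw [det_eq, al_TT, be_TT, norm_mul, Complex.norm_real, Real.norm_eq_abs, mul_pow, sq_abs]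
  have := tn_sq hz
  linarith

theorem TT_zero : TT 0 = 1 := by
  rw [← ab_al_be (1 : Matrix (Fin 2) (Fin 2) ℝ), al_one, be_one, TT]
  simp

theorem TT_moves {p q : ℂ} (hp : ‖p‖ < 1) (hq : ‖q‖ < 1) (u : M2) :
    be (adjugate (TT p) * u * TT q) = 0 ↔ Moves u p q := by
  have h : be (adjugate (TT p) * u * TT q) =
      ((tn p * tn q : ℝ) : ℂ) * (al u * q + be u - p * (conj (be u) * q + conj (al u))) := by
    rw [be_mul, al_mul, be_mul, al_adj, be_adj, al_TT, be_TT, al_TT, be_TT]
    simp only [Complex.conj_ofReal, Complex.ofReal_mul]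
    ring
  rw [h, mul_eq_zero, sub_eq_zero, or_iff_right]
  · exact Iff.rfl
  · exact_mod_cast (mul_pos (tn_pos hp) (tn_pos hq)).ne'

/-- `b ↦ ab 0 b` as a linear map -/
private noncomputable def abL : ℂ →ₗ[ℝ] Matrix (Fin 2) (Fin 2) ℝ where
  toFun b := ab 0 b
  map_add' x y := by
    ext i j
    fin_cases i <;> fin_cases j <;> simp [ab]
    all_goals ring
  map_smul' c x := by
    ext i j
    fin_cases i <;> fin_cases j <;> simp [ab]

/-- `a ↦ ab a 0` as a linear map -/
private noncomputable def abM : ℂ →ₗ[ℝ] Matrix (Fin 2) (Fin 2) ℝ where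
  toFun b := ab b 0
  map_add' x y := by
    ext i j
    fin_cases i <;> fin_cases j <;> simp [ab]
    all_goals ring
  map_smul' c x := by
    ext i j
    fin_cases i <;> fin_cases j <;> simp [ab]

private lemma TT_eq (p : ℂ) : TT p = tn p • (1 + abL p) := by
  ext i j
  fin_cases i <;> fin_cases j <;> simp [TT, abL, ab, tn] <;> ring

private lemma contDiffAt_tn {p : ℂ} (hp : ‖p‖ < 1) : ContDiffAt ℝ ∞ tn p := by
  have : ‖p‖ ^ 2 < 1 := by nlinarith [norm_nonneg p]
  have h1 : ContDiffAt ℝ ∞ (fun p : ℂ => 1 - ‖p‖ ^ 2) p := by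
    exact (contDiff_const.sub (contDiff_norm_sq ℝ)).contDiffAt
  exact (h1.sqrt (by linarith)).inv (Real.sqrt_ne_zero'.mpr (by linarith))

theorem TT_contDiffAt {z : ℂ} (hz : ‖z‖ < 1) : ContDiffAt ℝ ∞ TT z := by
  have h : TT = fun p => tn p • (1 + abL.toContinuousLinearMap p) := by
    funext p
    exact TT_eq p
  rw [h]
  exact (contDiffAt_tn hz).smul (contDiffAt_const.add (ContinuousLinearMap.contDiff _).contDiffAt)

/-- The element of `GL(6, ℝ)` with matrix `bm m x`. -/
def unitOf (m : Fin 3) (x : Fin 3 → M2) (hx : ∀ r, (x r).det = 1) : GL I6 ℝ where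
  val := bm m x
  inv := bm (-m) (fun r => adjugate (x (r + m)))
  val_inv := by
    rw [bm_mul]
    have h2 : (fun r => x r * adjugate (x (r - m + m))) = fun _ => 1 := by
      funext r
      rw [show r - m + m = r by abel, mul_adjugate, hx, one_smul]
    rw [h2, show -m + m = 0 by abel, bm_one]
  inv_val := by
    rw [bm_mul]
    have h2 : (fun r => adjugate (x (r + m)) * x (r - -m)) = fun _ => 1 := by
      funext r
      rw [show r - -m = r + m by abel, adjugate_mul, hx, one_smul]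
    rw [h2, show m + -m = 0 by abel, bm_one]

@[simp] theorem unitOf_val (m : Fin 3) (x : Fin 3 → M2) (hx : ∀ r, (x r).det = 1) :
    (unitOf m x hx).val = bm m x := rfl

/-- `bm m` as a linear map -/
private noncomputable def bmL (m : Fin 3) : (Fin 3 → M2) →ₗ[ℝ] Matrix I6 I6 ℝ where
  toFun x := bm m x
  map_add' x y := by
    ext i j
    simp only [bm_apply, Matrix.add_apply, Pi.add_apply]
    split <;> simp
  map_smul' c x := by
    ext i j
    simp only [bm_apply, Matrix.smul_apply, Pi.smul_apply, RingHom.id_apply]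
    split <;> simp

private lemma pt_norm {z : ℂ} (hz : ‖z‖ < 1) (r : Fin 3) : ‖pt z r‖ < 1 := by
  have h2 : ‖z / 2‖ < 1 := by
    rw [norm_div]
    simp
    linarith [norm_nonneg z]
  unfold pt
  fin_cases r
  · exact hz
  · exact h2
  · simp

private lemma continuous_pt (r : Fin 3) : Continuous (fun z => pt z r) := by
  unfold pt
  fin_cases r
  · exact continuous_id
  · exact continuous_id.div_const 2
  · exact continuous_const

private lemma isCompact_part_aux {R : ℝ} (hR : R < 1) (m : Fin 3) :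
    IsCompact {g : GL I6 ℝ | ∃ (z : ℂ) (κ : Fin 3 → M2), ‖z‖ ≤ R ∧
      (∀ r, (κ r).det = 1 ∧ be (κ r) = 0) ∧ g.val = bm m (fun r => TT (pt z r) * κ r)} := by
  set S : Set (Matrix I6 I6 ℝ) := {M | ∃ (z : ℂ) (κ : Fin 3 → M2), ‖z‖ ≤ R ∧
      (∀ r, (κ r).det = 1 ∧ be (κ r) = 0) ∧ M = bm m (fun r => TT (pt z r) * κ r)} with hS
  have hpre : {g : GL I6 ℝ | ∃ (z : ℂ) (κ : Fin 3 → M2), ‖z‖ ≤ R ∧
      (∀ r, (κ r).det = 1 ∧ be (κ r) = 0) ∧ g.val = bm m (fun r => TT (pt z r) * κ r)} =
      (fun g : GL I6 ℝ => g.val) ⁻¹' S := rfl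
  have hemb : Topology.IsOpenEmbedding (fun g : GL I6 ℝ => g.val) := Units.isOpenEmbedding_val
  rw [hpre, hemb.isInducing.isCompact_preimage_iff]
  · -- compactness in the space of matrices
    have h1 : IsCompact ((Metric.closedBall (0 : ℂ) R) ×ˢ (Set.univ : Set (Fin 3 → Circle))) :=
      (isCompact_closedBall _ _).prod isCompact_univ
    have h2 : ContinuousOn (fun p : ℂ × (Fin 3 → Circle) =>
        (bmL m).toContinuousLinearMap (fun r => TT (pt p.1 r) *
          abM.toContinuousLinearMap ((p.2 r : Circle) : ℂ)))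
        ((Metric.closedBall (0 : ℂ) R) ×ˢ (Set.univ : Set (Fin 3 → Circle))) := by
      refine (ContinuousLinearMap.continuous _).comp_continuousOn ?_
      rw [continuousOn_pi]
      intro r
      refine ContinuousOn.mul ?_ ?_
      · rintro ⟨z, e⟩ ⟨hz, -⟩
        rw [mem_closedBall_zero_iff] at hz
        have h3 : ContinuousAt TT (pt z r) :=
          (TT_contDiffAt (pt_norm (lt_of_le_of_lt hz hR) r)).continuousAt
        have h4 : ContinuousAt (fun p : ℂ × (Fin 3 → Circle) => pt p.1 r) (z, e) :=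
          ((continuous_pt r).comp continuous_fst).continuousAt
        exact (ContinuousAt.comp (f := fun p : ℂ × (Fin 3 → Circle) => pt p.1 r) (g := TT) (x := (z, e)) h3 h4).continuousWithinAt
      · refine Continuous.continuousOn ?_
        refine (ContinuousLinearMap.continuous _).comp ?_
        exact continuous_subtype_val.comp ((continuous_apply r).comp continuous_snd)
    convert h1.image_of_continuousOn h2 using 1
    ext M
    constructor
    · rintro ⟨z, κ, hz, hκ, rfl⟩
      have h5 : ∀ r, ‖al (κ r)‖ = 1 := by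
        intro r
        have h6 := det_eq (κ r)
        rw [(hκ r).1, (hκ r).2, norm_zero] at h6
        have h7 : ‖al (κ r)‖ ^ 2 = 1 := by linarith
        exact (pow_eq_one_iff_of_nonneg (norm_nonneg _) two_ne_zero).mp h7
      refine ⟨(z, fun r => ⟨al (κ r), mem_sphere_zero_iff_norm.mpr (h5 r)⟩), ⟨?_, Set.mem_univ _⟩, ?_⟩
      · rwa [mem_closedBall_zero_iff]
      · have h8 : (fun r => TT (pt z r) * ab (al (κ r)) 0) = fun r => TT (pt z r) * κ r := by
          funext r
          rw [← (hκ r).2, ab_al_be]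
        rw [← h8]
        rfl
    · rintro ⟨⟨z, e⟩, ⟨hz, -⟩, rfl⟩
      rw [mem_closedBall_zero_iff] at hz
      refine ⟨z, fun r => ab (e r : ℂ) 0, hz, fun r => ⟨?_, be_ab _ _⟩, rfl⟩
      rw [det_eq, al_ab, be_ab, norm_zero, Circle.norm_coe]
      norm_num
  · rintro M ⟨z, κ, hz, hκ, rfl⟩
    refine ⟨unitOf m (fun r => TT (pt z r) * κ r) (fun r => ?_), rfl⟩
    rw [det_mul, TT_det (pt_norm (lt_of_le_of_lt hz hR) r), (hκ r).1, one_mul]

/-- The set `{g₀(z) k : |z| ≤ R}` is compact. -/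
theorem isCompact_part {R : ℝ} (hR : R < 1) : IsCompact {g : GL I6 ℝ | ∃ (m : Fin 3) (z : ℂ)
    (κ : Fin 3 → M2), ‖z‖ ≤ R ∧ (∀ r, (κ r).det = 1 ∧ be (κ r) = 0) ∧
    g.val = bm m (fun r => TT (pt z r) * κ r)} := by
  have h := isCompact_iUnion (fun m : Fin 3 => isCompact_part_aux hR m)
  convert h using 1
  ext g
  rw [Set.mem_iUnion]
  exact Iff.rfl

end F31343D
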