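import Pool.Agent.Lib_MP_f31343_dis.Groups
import Pool.Agent.Lib_MP_f31343_dis.FibA
import Pool.Agent.Lib_MP_f31343_dis.FibB

/-!
# S2, part C: the projection
-/

open Matrix ComplexConjugate F31343 NormedSpace Filter Topology
open scoped Matrix.Norms.Operator ContDiff

namespace F31343D.S2

/-- the block `(i, j)` -/
def blk (M : Matrix I6 I6 ℝ) (i j : Fin 3) : M2 := Matrix.of fun a b => M (i, a) (j, b)

lemma blk_bm (m : Fin 3) (x : Fin 3 → M2) (i j : Fin 3) :
    blk (bm m x) i j = if i = j + m then x i else 0 := by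
  ext a b
  simp only [blk, Matrix.of_apply, bm_apply]
  split_ifs <;> rfl

/-- sum of the blocks of a block column -/
def colsum (M : Matrix I6 I6 ℝ) (j : Fin 3) : M2 := ∑ i, blk M i j

lemma colsum_bm (m : Fin 3) (x : Fin 3 → M2) (j : Fin 3) : colsum (bm m x) j = x (j + m) := by
  unfold colsum
  simp only [blk_bm]
  rw [Finset.sum_ite_eq' Finset.univ (j + m) x, if_pos (Finset.mem_univ _)]

/-- `x_m x_(m+1)⁻¹` -/
def uu (M : Matrix I6 I6 ℝ) : M2 := colsum M 0 * adjugate (colsum M 1)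

lemma uu_bm (m : Fin 3) (x : Fin 3 → M2) : uu (bm m x) = x m * adjugate (x (m + 1)) := by
  unfold uu
  rw [colsum_bm, colsum_bm, zero_add, add_comm]

/-- the projection -/
noncomputable def pic (M : Matrix I6 I6 ℝ) : ℂ :=
  if 1 / 2 < (blk M 0 0).det then f0 (uu M)
  else if 1 / 2 < (blk M 1 0).det then f1 (uu M) else f2 (uu M)

lemma det_blk (m : Fin 3) (x : Fin 3 → M2) (hx : ∀ r, (x r).det = 1) (i : Fin 3) :
    (blk (bm m x) i 0).det = if i = m then 1 else 0 := by
  rw [blk_bm, zero_add]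
  split_ifs
  · exact hx i
  · simp

lemma pic_bm (m : Fin 3) (x : Fin 3 → M2) (hx : ∀ r, (x r).det = 1) :
    pic (bm m x) = ff m (x m * adjugate (x (m + 1))) := by
  unfold pic
  rw [det_blk m x hx, det_blk m x hx, uu_bm]
  fin_cases m <;> simp [ff] <;> norm_num

lemma det_u {m : Fin 3} {x : Fin 3 → M2} (hx : ∀ r, (x r).det = 1) :
    (x m * adjugate (x (m + 1))).det = 1 := by
  rw [det_mul, hx, det_adj (hx _), one_mul]

/-- the total space -/
def UU : Set (GL I6 ℝ) := {g | ∃ (m : Fin 3) (x : Fin 3 → M2) (z : ℂ), (∀ r, (x r).det = 1) ∧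
    g.val = bm m x ∧ ‖z‖ < 1 / 4 ∧
    Moves (x m * adjugate (x (m + 1))) (pt z m) (pt z (m + 1))}

lemma pic_eq {m : Fin 3} {x : Fin 3 → M2} {z : ℂ} (hx : ∀ r, (x r).det = 1) (hz : ‖z‖ < 1 / 4)
    (h : Moves (x m * adjugate (x (m + 1))) (pt z m) (pt z (m + 1))) : pic (bm m x) = z := by
  rw [pic_bm m x hx]
  exact (ff_unique m _ (det_u hx) z hz h).2

/-! ### smoothness -/

/-- The blocks as linear maps. -/
def blkL (i j : Fin 3) : Matrix I6 I6 ℝ →ₗ[ℝ] M2 where
  toFun M := blk M i j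
  map_add' _ _ := rfl
  map_smul' _ _ := rfl

lemma contDiff_blk (i j : Fin 3) : ContDiff ℝ ∞ (fun M : Matrix I6 I6 ℝ => blk M i j) :=
  (LinearMap.toContinuousLinearMap (blkL i j)).contDiff

lemma contDiff_colsum (j : Fin 3) : ContDiff ℝ ∞ (fun M : Matrix I6 I6 ℝ => colsum M j) := by
  unfold colsum
  exact ContDiff.sum fun i _ => contDiff_blk i j

/-- The adjugate as a linear map. -/
def adjL : M2 →ₗ[ℝ] M2 where
  toFun M := adjugate M
  map_add' A B := by
    rw [adjugate_fin_two, adjugate_fin_two, adjugate_fin_two]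
    ext i j; fin_cases i <;> fin_cases j <;> simp <;> ring
  map_smul' c A := by
    rw [adjugate_fin_two, adjugate_fin_two]
    ext i j; fin_cases i <;> fin_cases j <;> simp

lemma contDiff_adj : ContDiff ℝ ∞ (fun M : M2 => adjugate M) :=
  (LinearMap.toContinuousLinearMap adjL).contDiff

lemma contDiff_uu : ContDiff ℝ ∞ uu :=
  (contDiff_colsum 0).mul (contDiff_adj.comp (contDiff_colsum 1))

lemma continuous_det2 : Continuous (fun M : M2 => M.det) := by
  have h : (fun M : M2 => M.det) = fun M => ‖al M‖ ^ 2 - ‖be M‖ ^ 2 := by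
    funext M; exact det_eq M
  rw [h]
  exact (continuous_al.norm.pow 2).sub (continuous_be.norm.pow 2)

lemma continuous_det_blk (i j : Fin 3) :
    Continuous (fun M : Matrix I6 I6 ℝ => (blk M i j).det) :=
  continuous_det2.comp (contDiff_blk i j).continuous

lemma pic_eventually {m : Fin 3} {x : Fin 3 → M2} (hx : ∀ r, (x r).det = 1) :
    pic =ᶠ[𝓝 (bm m x)] ff m ∘ uu := by
  have hd := det_blk m x hx
  have hpos : ∀ i, i = m → ∀ᶠ M in 𝓝 (bm m x), 1 / 2 < (blk M i 0).det := by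
    intro i hi
    refine (continuous_det_blk i 0).continuousAt.eventually_const_lt ?_
    beta_reduce
    rw [hd i, if_pos hi]; norm_num
  have hneg : ∀ i, i ≠ m → ∀ᶠ M in 𝓝 (bm m x), ¬ 1 / 2 < (blk M i 0).det := by
    intro i hi
    have : ∀ᶠ M in 𝓝 (bm m x), (blk M i 0).det < 1 / 2 := by
      refine (continuous_det_blk i 0).continuousAt.eventually_lt_const ?_
      beta_reduce
      rw [hd i, if_neg hi]; norm_num
    filter_upwards [this] with M hM using not_lt.mpr hM.le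
  fin_cases m
  · filter_upwards [hpos 0 rfl] with M hM
    unfold pic
    rw [if_pos hM]
    rfl
  · filter_upwards [hneg 0 (by decide), hpos 1 rfl] with M hM hM'
    unfold pic
    rw [if_neg hM, if_pos hM']
    rfl
  · filter_upwards [hneg 0 (by decide), hneg 1 (by decide)] with M hM hM'
    unfold pic
    rw [if_neg hM, if_neg hM']
    rfl

lemma pic_contDiffAt {g : GL I6 ℝ} (hg : g ∈ UU) : ContDiffAt ℝ ∞ pic g.val := by
  obtain ⟨m, x, z, hx, hgx, hz, hE⟩ := hg
  rw [hgx]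
  refine ContDiffAt.congr_of_eventuallyEq ?_ (pic_eventually hx)
  refine ContDiffAt.comp _ ?_ contDiff_uu.contDiffAt
  rw [uu_bm]
  exact ff_contDiffAt m _ (det_u hx) (ff_unique m _ (det_u hx) z hz hE).1

/-! ### the total space is open -/

lemma UU_sub {g : GL I6 ℝ} (hg : g ∈ UU) : g ∈ bigG.grp := by
  obtain ⟨m, x, z, hx, hgx, -⟩ := hg
  exact ⟨m, x, hx, hgx⟩

lemma continuous_ww : Continuous ww := by
  unfold ww
  exact (Complex.continuous_conj.comp continuous_al).sub (continuous_al.div_const _)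

lemma UU_nhds {g : GL I6 ℝ} (hg : g ∈ UU) : ∀ᶠ g' in 𝓝 g, g' ∈ bigG.grp → g' ∈ UU := by
  have hpc := (pic_contDiffAt hg).continuousAt
  have hpz : ‖pic g.val‖ < 1 / 4 := by
    obtain ⟨m, x, z, hx, hgx, hz, hE⟩ := hg
    rw [hgx, pic_eq hx hz hE]; exact hz
  have h1 : ∀ᶠ M in 𝓝 g.val, ‖pic M‖ < 1 / 4 := hpc.norm.eventually_lt_const hpz
  have h2 : ∀ᶠ M in 𝓝 g.val, 1 / 2 < (blk M 0 0).det → 2 * ‖be (uu M)‖ ^ 2 < ‖ww (uu M)‖ ^ 2 := by
    obtain ⟨m, x, z, hx, hgx, hz, hE⟩ := hg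
    by_cases hm : m = 0
    · have hD := (ff_unique m _ (det_u hx) z hz hE).1 hm
      have hc : Continuous fun M : Matrix I6 I6 ℝ => ‖ww (uu M)‖ ^ 2 - 2 * ‖be (uu M)‖ ^ 2 :=
        ((continuous_ww.comp contDiff_uu.continuous).norm.pow 2).sub
          (((continuous_be.comp contDiff_uu.continuous).norm.pow 2).const_mul 2)
      have hc' : ∀ᶠ M in 𝓝 g.val, 0 < ‖ww (uu M)‖ ^ 2 - 2 * ‖be (uu M)‖ ^ 2 := by
        refine hc.continuousAt.eventually_const_lt ?_
        beta_reduce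
        rw [hgx, uu_bm]
        linarith
      filter_upwards [hc'] with M hM _
      linarith
    · have : ∀ᶠ M in 𝓝 g.val, (blk M 0 0).det < 1 / 2 := by
        refine (continuous_det_blk 0 0).continuousAt.eventually_lt_const ?_
        beta_reduce
        rw [hgx, det_blk m x hx, if_neg (Ne.symm hm)]; norm_num
      filter_upwards [this] with M hM h'
      exact absurd h' (not_lt.mpr hM.le)
  have hv : Continuous (fun g : GL I6 ℝ => g.val) := Units.continuous_val
  filter_upwards [hv.continuousAt.eventually h1, hv.continuousAt.eventually h2] with g' h1' h2' hG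
  obtain ⟨m, x, hx, hgx⟩ := hG
  have h1'' : ‖pic g'.val‖ < 1 / 4 := h1'
  have h2'' : 1 / 2 < (blk g'.val 0 0).det → 2 * ‖be (uu g'.val)‖ ^ 2 < ‖ww (uu g'.val)‖ ^ 2 := h2'
  rw [hgx, pic_bm m x hx] at h1''
  rw [hgx, uu_bm, det_blk m x hx] at h2''
  refine ⟨m, x, _, hx, hgx, h1'', ff_moves m _ (det_u hx) ?_⟩
  intro hm
  subst hm
  exact h2'' (by norm_num)

lemma UU_isOpen : ∃ O : Set (GL I6 ℝ), IsOpen O ∧ UU = O ∩ bigG.grp := by
  refine ⟨interior {g | g ∈ bigG.grp → g ∈ UU}, isOpen_interior, ?_⟩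
  ext g
  constructor
  · intro hg
    exact ⟨mem_interior_iff_mem_nhds.mpr (UU_nhds hg), UU_sub hg⟩
  · rintro ⟨h1, h2⟩
    exact (interior_subset h1) h2

end F31343D.S2
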