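import Pool.Agent.Lib_MP_f31343_dis.FibC

/-!
# S2, part D: the fibres, properness
-/

open Matrix ComplexConjugate F31343 NormedSpace Filter Topology
open scoped Matrix.Norms.Operator ContDiff

namespace F31343D.S2

/-! ### 2 × 2 facts -/

lemma adj_adj (A : M2) : adjugate (adjugate A) = A := by
  rw [adjugate_fin_two, adjugate_fin_two]
  ext i j; fin_cases i <;> fin_cases j <;> simp

lemma adj_mul_self {A : M2} (h : A.det = 1) : adjugate A * A = 1 := by
  rw [adjugate_mul, h, one_smul]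

lemma mul_adj_self {A : M2} (h : A.det = 1) : A * adjugate A = 1 := by
  rw [mul_adjugate, h, one_smul]

lemma adj_mul (A B : M2) : adjugate (A * B) = adjugate B * adjugate A := adjugate_mul_distrib A B

/-- `SO(2)`: determinant one and `be = 0`. -/
lemma orth_iff (A : M2) : (Aᵀ * A = 1 ∧ A.det = 1) ↔ (A.det = 1 ∧ be A = 0) := by
  constructor
  · rintro ⟨h1, h2⟩
    refine ⟨h2, ?_⟩
    have h00 := congrFun (congrFun h1 0) 0
    have h11 := congrFun (congrFun h1 1) 1
    rw [det_fin_two] at h2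
    simp only [Matrix.mul_apply, Matrix.transpose_apply, Fin.sum_univ_two, Matrix.one_apply_eq]
      at h00 h11
    have h3 : (A 0 0 - A 1 1) ^ 2 + (A 1 0 + A 0 1) ^ 2 = 0 := by nlinarith
    have h4 : A 0 0 - A 1 1 = 0 := by nlinarith [sq_nonneg (A 0 0 - A 1 1), sq_nonneg (A 1 0 + A 0 1)]
    have h5 : A 1 0 + A 0 1 = 0 := by nlinarith [sq_nonneg (A 0 0 - A 1 1), sq_nonneg (A 1 0 + A 0 1)]
    apply Complex.ext
    · simp [be, h4]
    · simp [be, h5]
  · rintro ⟨h1, h2⟩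
    refine ⟨?_, h1⟩
    have h4 : A 0 0 - A 1 1 = 0 := by
      have := congrArg Complex.re h2
      simp only [be, Complex.zero_re] at this
      linarith
    have h5 : A 1 0 + A 0 1 = 0 := by
      have := congrArg Complex.im h2
      simp only [be, Complex.zero_im] at this
      linarith
    rw [det_fin_two] at h1
    have e1 : A 1 1 = A 0 0 := by linarith
    have e2 : A 1 0 = - A 0 1 := by linarith
    ext i j
    fin_cases i <;> fin_cases j <;>
      simp only [Matrix.mul_apply, Matrix.transpose_apply, Fin.sum_univ_two, Matrix.one_apply,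
        Fin.zero_eta, Fin.mk_one, Fin.isValue, e1, e2] <;>
      norm_num <;> rw [e1, e2] at h1 <;> nlinarith

lemma bm_transpose (m : Fin 3) (x : Fin 3 → M2) :
    (bm m x)ᵀ = bm (-m) (fun r => (x (r + m))ᵀ) := by
  ext ⟨i, a⟩ ⟨j, b⟩
  rw [transpose_apply, bm_apply, bm_apply]
  simp only [transpose_apply]
  by_cases h : j = i + m
  · rw [if_pos h, if_pos (show i = j + -m by rw [h]; abel), h]
  · rw [if_neg h, if_neg (show ¬ i = j + -m from fun h' => h (by rw [h']; abel))]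

lemma K_mem_iff (k : GL I6 ℝ) : k ∈ bigG.K ↔ ∃ (m : Fin 3) (κ : Fin 3 → M2),
    (∀ r, (κ r).det = 1 ∧ be (κ r) = 0) ∧ k.val = bm m κ := by
  constructor
  · rintro ⟨⟨m, x, hx, hk⟩, ho⟩
    refine ⟨m, x, fun r => ?_, hk⟩
    rw [hk, bm_transpose, bm_mul, ← bm_one] at ho
    have h1 := (bm_injective (fun _ => Matrix.det_one) ho.symm).2
    have h2 := congrFun h1 (r - m)
    rw [← orth_iff]
    refine ⟨?_, hx r⟩
    simp only [sub_neg_eq_add, sub_add_cancel] at h2
    exact h2.symm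
  · rintro ⟨m, κ, hκ, hk⟩
    refine ⟨⟨m, κ, fun r => (hκ r).1, hk⟩, ?_⟩
    rw [hk, bm_transpose, bm_mul, ← bm_one]
    congr 1
    · abel
    · funext r
      simp only [sub_neg_eq_add]
      exact ((orth_iff _).mpr (hκ _)).1

/-! ### the fibres -/

lemma pt_norm {z : ℂ} {R : ℝ} (hz : ‖z‖ < R) (r : Fin 3) : ‖pt z r‖ < R := by
  have h0 := norm_nonneg z
  fin_cases r
  · exact hz
  · show ‖z / 2‖ < R
    rw [norm_div]
    simp only [Complex.norm_ofNat]
    linarith
  · show ‖(0 : ℂ)‖ < R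
    rw [norm_zero]
    linarith

lemma TT_det' {z : ℂ} (hz : ‖z‖ < 1 / 4) (r : Fin 3) : (TT (pt z r)).det = 1 :=
  TT_det ((pt_norm hz r).trans (by norm_num))

/-- `g₀(z)` -/
noncomputable def g0 (z : ℂ) (hz : ‖z‖ < 1 / 4) : GL I6 ℝ :=
  unitOf 0 (fun r => TT (pt z r)) (TT_det' hz)

/-- If `x = T y` with `T = TT (pt z ·)` then the condition is `be (y m * adj (y (m+1))) = 0`. -/
lemma moves_iff {z : ℂ} (hz : ‖z‖ < 1 / 4) (m : Fin 3) (c : Fin 3 → M2) :
    Moves ((TT (pt z m) * c m) * adjugate (TT (pt z (m + 1)) * c (m + 1)))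
      (pt z m) (pt z (m + 1)) ↔ be (c m * adjugate (c (m + 1))) = 0 := by
  have h1 : ∀ r, ‖pt z r‖ < 1 := fun r => (pt_norm hz r).trans (by norm_num)
  rw [← TT_moves (h1 _) (h1 _)]
  have h2 : adjugate (TT (pt z m)) * ((TT (pt z m) * c m) *
      adjugate (TT (pt z (m + 1)) * c (m + 1))) * TT (pt z (m + 1))
      = c m * adjugate (c (m + 1)) := by
    rw [adj_mul]
    calc adjugate (TT (pt z m)) * ((TT (pt z m) * c m) *
          (adjugate (c (m + 1)) * adjugate (TT (pt z (m + 1))))) * TT (pt z (m + 1))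
        = (adjugate (TT (pt z m)) * TT (pt z m)) * (c m * adjugate (c (m + 1))) *
          (adjugate (TT (pt z (m + 1))) * TT (pt z (m + 1))) := by
            simp only [mul_assoc]
      _ = _ := by rw [adj_mul_self (TT_det' hz _), adj_mul_self (TT_det' hz _), one_mul, mul_one]
  rw [h2]

lemma mem_UU_of {z : ℂ} (hz : ‖z‖ < 1 / 4) {m : Fin 3} {c : Fin 3 → M2}
    (hc : ∀ r, (c r).det = 1) (hb : be (c m * adjugate (c (m + 1))) = 0) {g : GL I6 ℝ}
    (hg : g.val = bm m (fun r => TT (pt z r) * c r)) : g ∈ UU ∧ pic g.val = z := by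
  have hx : ∀ r, (TT (pt z r) * c r).det = 1 := fun r => by
    rw [det_mul, TT_det' hz, hc, one_mul]
  have hE := (moves_iff hz m c).mpr hb
  refine ⟨⟨m, _, z, hx, hg, hz, hE⟩, ?_⟩
  rw [hg]
  exact pic_eq hx hz hE

lemma exists_c {g : GL I6 ℝ} (hg : g ∈ UU) : ∃ (m : Fin 3) (c : Fin 3 → M2),
    ‖pic g.val‖ < 1 / 4 ∧ (∀ r, (c r).det = 1) ∧ be (c m * adjugate (c (m + 1))) = 0 ∧
      g.val = bm m (fun r => TT (pt (pic g.val) r) * c r) := by
  obtain ⟨m, x, z, hx, hgx, hz, hE⟩ := hg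
  have hp : pic g.val = z := by rw [hgx]; exact pic_eq hx hz hE
  rw [hp]
  have hc : ∀ r, TT (pt z r) * (adjugate (TT (pt z r)) * x r) = x r := fun r => by
    rw [← mul_assoc, mul_adj_self (TT_det' hz r), one_mul]
  refine ⟨m, fun r => adjugate (TT (pt z r)) * x r, hz, fun r => ?_, ?_, ?_⟩
  · rw [det_mul, det_adj (TT_det' hz r), hx, one_mul]
  · rw [← moves_iff hz m (fun r => adjugate (TT (pt z r)) * x r), hc, hc]
    exact hE
  · rw [hgx]
    congr 1
    funext r
    exact (hc r).symm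

lemma subgroup_form {h : GL I6 ℝ} (hh : h ∈ subH.grp) : ∃ y : Fin 3 → M2,
    (∀ r, (y r).det = 1) ∧ y 0 = y 1 ∧ h.val = bm 0 y := hh

lemma hm1 : ∀ m : Fin 3, ¬ m + 1 = m := by decide

lemma hm2 : ∀ m : Fin 3, ¬ m + 2 = m := by decide

lemma fib_iff {z : ℂ} (hz : ‖z‖ < 1 / 4) (g' : GL I6 ℝ) :
    (g' ∈ UU ∧ pic g'.val = z) ↔ ∃ k ∈ bigG.K, ∃ h ∈ subH.grp, g' = g0 z hz * k * h := by
  constructor
  · rintro ⟨hg, hp⟩
    obtain ⟨m, c, -, hc, hb, hgc⟩ := exists_c hg
    rw [hp] at hgc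
    set κ : Fin 3 → M2 := fun r => if r = m then c m * adjugate (c (m + 1)) else 1 with hκ
    set y : Fin 3 → M2 := fun r => if r = 2 then c (m + 2) else c (m + 1) with hy
    have hκ1 : ∀ r, (κ r).det = 1 ∧ be (κ r) = 0 := by
      intro r
      simp only [hκ]
      split_ifs
      · exact ⟨det_u hc, hb⟩
      · exact ⟨Matrix.det_one, be_one⟩
    have hy1 : ∀ r, (y r).det = 1 := by
      intro r
      simp only [hy]
      split_ifs <;> exact hc _
    refine ⟨unitOf m κ (fun r => (hκ1 r).1), (K_mem_iff _).mpr ⟨m, κ, hκ1, rfl⟩,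
      unitOf 0 y hy1, ⟨y, hy1, ?_, rfl⟩, ?_⟩
    · simp [hy]
    · apply Units.ext
      rw [Units.val_mul, Units.val_mul, unitOf_val, unitOf_val, g0, unitOf_val, bm_mul, bm_mul,
        hgc]
      congr 1
      · abel
      · funext r
        have hr : TT (pt z r) * c r = TT (pt z r) * (κ r * y (r - m)) := by
          congr 1
          obtain ⟨s, rfl⟩ : ∃ s, r = m + s := ⟨r - m, by abel⟩
          rw [show m + s - m = s by abel]
          simp only [hκ, hy]
          have hs : s = 0 ∨ s = 1 ∨ s = 2 := by revert s; decide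
          rcases hs with rfl | rfl | rfl
          · simp only [add_zero, if_true]
            rw [if_neg (by decide), mul_assoc, adj_mul_self (hc _), mul_one]
          · rw [if_neg (hm1 m), if_neg (by decide), one_mul]
          · rw [if_neg (hm2 m), if_pos rfl, one_mul]
        rw [hr]
        simp only [sub_zero, add_zero, mul_assoc]
  · rintro ⟨k, hk, h, hh, rfl⟩
    obtain ⟨n, κ, hκ, hkv⟩ := (K_mem_iff k).mp hk
    obtain ⟨y, hy, hy01, hhv⟩ := subgroup_form hh
    refine mem_UU_of hz (m := n) (c := fun r => κ r * y (r - n)) (fun r => ?_) ?_ ?_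
    · rw [det_mul, (hκ _).1, hy, one_mul]
    · have e1 : (n : Fin 3) - n = 0 := by abel
      have e2 : n + 1 - n = 1 := by abel
      simp only [e1, e2]
      rw [adj_mul, ← hy01]
      have : κ n * y 0 * (adjugate (y 0) * adjugate (κ (n + 1)))
          = κ n * (y 0 * adjugate (y 0)) * adjugate (κ (n + 1)) := by simp only [mul_assoc]
      rw [this, mul_adj_self (hy _), mul_one, be_mul, be_adj, (hκ _).2, (hκ _).2]
      simp
    · rw [Units.val_mul, Units.val_mul, g0, unitOf_val, hkv, hhv, bm_mul, bm_mul]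
      congr 1
      · abel
      · funext r
        simp only [sub_zero, add_zero, mul_assoc]

lemma UU_mul_mem {g : GL I6 ℝ} (hg : g ∈ UU) {h : GL I6 ℝ} (hh : h ∈ subH.grp) :
    g * h ∈ UU := by
  have hz : ‖pic g.val‖ < 1 / 4 := by
    obtain ⟨m, c, h1, -⟩ := exists_c hg
    exact h1
  obtain ⟨k, hk, h', hh', he⟩ := (fib_iff hz g).mp ⟨hg, rfl⟩
  refine ((fib_iff hz (g * h)).mpr ⟨k, hk, h' * h, subH.grp.mul_mem hh' hh, ?_⟩).1
  calc g * h = (g0 (pic g.val) hz * k * h') * h := congrArg (fun t => t * h) he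
    _ = _ := mul_assoc _ _ _

lemma UU_nonempty : UU.Nonempty := by
  refine ⟨1, ((fib_iff (z := 0) (by norm_num) 1).mpr ⟨1, bigG.K.one_mem, 1, subH.grp.one_mem, ?_⟩).1⟩
  rw [mul_one, mul_one]
  apply Units.ext
  rw [g0, unitOf_val, Units.val_one, ← bm_one]
  congr 1
  funext r
  fin_cases r <;> simp [pt, TT_zero]

/-! ### properness -/

lemma UU_proper {g : GL I6 ℝ} (hg : g ∈ UU) : ∃ R : ℝ, ‖pic g.val‖ < R ∧ R < 1 / 4 ∧
    ∃ C : Set (GL I6 ℝ), IsCompact C ∧ C ⊆ UU ∧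
    ∀ g' ∈ UU, ‖pic g'.val‖ < R → ∃ c ∈ C, ∃ h ∈ subH.grp, g' = c * h := by
  have hz : ‖pic g.val‖ < 1 / 4 := by
    obtain ⟨m, c, h1, -⟩ := exists_c hg
    exact h1
  refine ⟨(‖pic g.val‖ + 1 / 4) / 2, by linarith, by linarith, _,
    isCompact_part (R := (‖pic g.val‖ + 1 / 4) / 2) (by linarith), ?_, ?_⟩
  · rintro g' ⟨m, z, κ, hzR, hκ, hg'⟩
    refine (mem_UU_of (z := z) (by linarith) (fun r => (hκ r).1) ?_ hg').1
    rw [be_mul, be_adj, (hκ _).2, (hκ _).2]
    simp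
  · intro g' hg' hR
    have hz' : ‖pic g'.val‖ < 1 / 4 := by linarith
    obtain ⟨k, hk, h, hh, he⟩ := (fib_iff hz' g').mp ⟨hg', rfl⟩
    obtain ⟨n, κ, hκ, hkv⟩ := (K_mem_iff k).mp hk
    refine ⟨g0 _ hz' * k, ⟨n, pic g'.val, κ, hR.le, hκ, ?_⟩, h, hh, he⟩
    rw [Units.val_mul, g0, unitOf_val, hkv, bm_mul]
    congr 1
    · abel
    · funext r
      simp only [sub_zero]

end F31343D.S2
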