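import Pool.Agent.Lib_MP_f31343_dis.GDefs

/-!
# S2: definitions for the local geometric fibration

The fibres are `g₀(z) K · o`, where `g₀(z)` moves `(o, o, o)` to the triple `(z, z / 2, 0)` of points
of the disc.  In the component `m` this is `{u | u p_(m+1) = p_m}`, with `(p_0, p_1, p_2) =
(z, z / 2, 0)`, and this equation has at most one solution `z` with `|z| < 1 / 4`: `z = ff m u`.
-/

open Matrix ComplexConjugate F31343
open scoped Matrix.Norms.Operator ContDiff

namespace F31343D

/-- `2 × 2` real matrices -/
abbrev M2 := Matrix (Fin 2) (Fin 2) ℝ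

/-- The triple of points `(z, z / 2, 0)`. -/
noncomputable def pt (z : ℂ) (r : Fin 3) : ℂ := ![z, z / 2, 0] r

/-- The condition `u q = p` for points `p`, `q` of the disc. -/
def Moves (u : M2) (p q : ℂ) : Prop := al u * q + be u = p * (conj (be u) * q + conj (al u))

/-- The symmetric matrix moving `0` to the point `z` of the disc. -/
noncomputable def TT (z : ℂ) : M2 :=
  ab ((Real.sqrt (1 - ‖z‖ ^ 2))⁻¹ : ℝ) (((Real.sqrt (1 - ‖z‖ ^ 2))⁻¹ : ℝ) * z)

/-- the coefficient of the quadratic equation in component `0` -/
noncomputable def ww (u : M2) : ℂ := conj (al u) - al u / 2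

/-- the solution in component `0` -/
noncomputable def f0 (u : M2) : ℂ :=
  2 * be u / (ww u * (1 + Complex.exp (Complex.log
    (1 + 2 * (be u * conj (be u)) / ww u ^ 2) / 2)))

/-- the solution in component `1` -/
noncomputable def f1 (u : M2) : ℂ := 2 * be u / conj (al u)

/-- the solution in component `2` -/
noncomputable def f2 (u : M2) : ℂ := - be u / al u

/-- the solution `z` of `u p_(m+1) = p_m` -/
noncomputable def ff (m : Fin 3) : M2 → ℂ := ![f0, f1, f2] m

/-- the domain of `ff m` -/
def Dom (m : Fin 3) (u : M2) : Prop := m = 0 → 2 * ‖be u‖ ^ 2 < ‖ww u‖ ^ 2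

end F31343D
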