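import Pool.Agent.Lib_MP_f31343_dis.FibD

/-!
# S2, part E: the submersion
-/

open Matrix ComplexConjugate F31343 NormedSpace Filter Topology
open scoped Matrix.Norms.Operator ContDiff

namespace F31343D.S2

/-- The velocity of a curve of matrices of determinant one, translated to the origin, has trace
zero. -/
lemma trace_velocity {γ : ℝ → M2} {w : M2} (h : HasDerivAt γ w 0)
    (hd : ∀ᶠ t in 𝓝 (0 : ℝ), (γ t).det = 1) : (adjugate (γ 0) * w).trace = 0 := by
  have he : ∀ i j, HasDerivAt (fun t => γ t i j) (w i j) 0 := by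
    intro i j
    let L : M2 →ₗ[ℝ] ℝ :=
      { toFun := fun M => M i j
        map_add' := fun _ _ => rfl
        map_smul' := fun _ _ => rfl }
    exact (LinearMap.toContinuousLinearMap L).hasFDerivAt.comp_hasDerivAt (0 : ℝ) h
  have h1 : HasDerivAt (fun t => γ t 0 0 * γ t 1 1 - γ t 0 1 * γ t 1 0)
      ((w 0 0 * γ 0 1 1 + γ 0 0 0 * w 1 1) - (w 0 1 * γ 0 1 0 + γ 0 0 1 * w 1 0)) 0 :=
    ((he 0 0).mul (he 1 1)).sub ((he 0 1).mul (he 1 0))
  have h2 : (fun t => γ t 0 0 * γ t 1 1 - γ t 0 1 * γ t 1 0) =ᶠ[𝓝 (0 : ℝ)] fun _ => 1 := by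
    filter_upwards [hd] with t ht
    rw [← det_fin_two, ht]
  have h3 : HasDerivAt (fun t => γ t 0 0 * γ t 1 1 - γ t 0 1 * γ t 1 0) 0 (0 : ℝ) :=
    (hasDerivAt_const (0 : ℝ) (1 : ℝ)).congr_of_eventuallyEq h2
  have h4 := h1.unique h3
  rw [adjugate_fin_two, trace_fin_two]
  simp only [Matrix.mul_apply, Fin.sum_univ_two, Matrix.of_apply, Matrix.cons_val', Matrix.cons_val_zero,
    Matrix.cons_val_one, Matrix.empty_val', Matrix.cons_val_fin_one]
  linarith

/-- antisymmetric block matrices are in `𝔨` -/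
lemma mem_k {a : Fin 3 → M2} (ha : ∀ r, (a r)ᵀ = - a r) : bm 0 a ∈ bigG.𝔨 := by
  intro t g hg
  have he : g.val = bm 0 (fun r => exp (t • a r)) := by
    rw [hg, bm_smul, exp_bm]
  have ho : ∀ A : M2, Aᵀ = - A → (exp A)ᵀ * exp A = 1 := by
    intro A hA
    rw [← Matrix.exp_transpose, hA, ← Matrix.exp_add_of_commute (-A) A (Commute.neg_left rfl),
      neg_add_cancel, exp_zero]
  have hdet : ∀ A : M2, Aᵀ = - A → (exp A).det = 1 := by
    intro A hA
    have h1 : exp A = exp ((1 / 2 : ℝ) • A) * exp ((1 / 2 : ℝ) • A) := by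
      rw [← Matrix.exp_add_of_commute _ _ (Commute.refl _), ← add_smul]
      norm_num
    have h2 := ho ((1 / 2 : ℝ) • A) (by rw [transpose_smul, hA, smul_neg])
    have h3 := congrArg Matrix.det h2
    rw [det_mul, det_transpose, det_one] at h3
    rw [h1, det_mul, h3]
  have hA : ∀ r, (t • a r)ᵀ = - (t • a r) := fun r => by
    rw [transpose_smul, ha, smul_neg]
  rw [K_mem_iff]
  refine ⟨0, _, fun r => ?_, he⟩
  exact (orth_iff _).mp ⟨ho _ (hA r), hdet _ (hA r)⟩

/-- block matrices with blocks of trace zero are in `𝔨 + 𝔭` -/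
lemma decompose (Y : Fin 3 → M2) (hY : ∀ r, (Y r).trace = 0) :
    ∃ A ∈ bigG.𝔨, ∃ X ∈ bigG.𝔭, bm 0 Y = A + X := by
  refine ⟨bm 0 (fun r => (1 / 2 : ℝ) • (Y r - (Y r)ᵀ)), mem_k fun r => ?_,
    bm 0 (fun r => (1 / 2 : ℝ) • (Y r + (Y r)ᵀ)), ⟨_, fun r => ⟨?_, ?_⟩, rfl⟩, ?_⟩
  · rw [transpose_smul, transpose_sub, transpose_transpose, ← smul_neg, neg_sub]
  · rw [transpose_smul, transpose_add, transpose_transpose, add_comm]
  · rw [trace_smul, trace_add, trace_transpose, hY, add_zero, smul_zero]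
  · rw [bm_add]
    congr 1
    funext r
    rw [← smul_add]
    ext i j
    simp only [Matrix.smul_apply, Matrix.add_apply, Matrix.sub_apply, transpose_apply,
      smul_eq_mul]
    ring

/-- `bm m` as a linear map. -/
def bmL (m : Fin 3) : (Fin 3 → M2) →ₗ[ℝ] Matrix I6 I6 ℝ where
  toFun x := bm m x
  map_add' x y := (bm_add m x y).symm
  map_smul' c x := (bm_smul m c x).symm

lemma pt_add_smul (z e : ℂ) (t : ℝ) (r : Fin 3) : pt (z + t • e) r = pt z r + t • pt e r := by
  fin_cases r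
  · rfl
  · show (z + t • e) / 2 = z / 2 + t • (e / 2)
    rw [Complex.real_smul, Complex.real_smul]; ring
  · show (0 : ℂ) = 0 + t • 0
    rw [smul_zero, add_zero]

/-- The submersion: every direction `e` of `ℂ` is the derivative of `pic` in a direction
`g (A + X)`. -/
theorem submersion {g : GL I6 ℝ} (hg : g ∈ UU) (e : ℂ) :
    ∃ A ∈ bigG.𝔨, ∃ X ∈ bigG.𝔭, fderiv ℝ pic g.val (g.val * (A + X)) = e := by
  obtain ⟨m, c, hz, hc, hb, hgc⟩ := exists_c hg
  set z : ℂ := pic g.val with hzdef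
  -- the curve
  have hpt1 : ∀ r, ‖pt z r‖ < 1 := fun r => (pt_norm hz r).trans (by norm_num)
  have hline : ∀ r, HasDerivAt (fun t : ℝ => pt (z + t • e) r) (pt e r) 0 := by
    intro r
    have h1 : HasDerivAt (fun t : ℝ => pt z r + t • pt e r) (0 + (1 : ℝ) • pt e r) 0 :=
      (hasDerivAt_const _ _).add ((hasDerivAt_id (0 : ℝ)).smul_const (pt e r))
    rw [zero_add, one_smul] at h1
    have h2 : (fun t : ℝ => pt (z + t • e) r) = fun t : ℝ => pt z r + t • pt e r := by
      funext t; exact pt_add_smul z e t r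
    rw [h2]; exact h1
  have hblock : ∀ r, ∃ w : M2, HasDerivAt (fun t : ℝ => TT (pt (z + t • e) r) * c r) w 0 := by
    intro r
    have h1 : DifferentiableAt ℝ TT (pt (z + (0 : ℝ) • e) r) := by
      rw [zero_smul, add_zero]
      exact (TT_contDiffAt (hpt1 r)).differentiableAt (by simp)
    have h1' : HasFDerivAt TT (fderiv ℝ TT (pt (z + (0 : ℝ) • e) r))
        ((fun t : ℝ => pt (z + t • e) r) 0) := h1.hasFDerivAt
    have h2 : HasDerivAt (TT ∘ fun t : ℝ => pt (z + t • e) r)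
        (fderiv ℝ TT (pt (z + (0 : ℝ) • e) r) (pt e r)) 0 :=
      HasFDerivAt.comp_hasDerivAt (0 : ℝ) h1' (hline r)
    exact ⟨_, h2.mul_const (c r)⟩
  choose w hw using hblock
  have hcurve : HasDerivAt (fun t : ℝ => bm m (fun r => TT (pt (z + t • e) r) * c r)) (bm m w) 0 := by
    have h1 : HasDerivAt (fun t : ℝ => (fun r => TT (pt (z + t • e) r) * c r)) w 0 :=
      hasDerivAt_pi.mpr hw
    exact (LinearMap.toContinuousLinearMap (bmL m)).hasFDerivAt.comp_hasDerivAt (0 : ℝ) h1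
  -- near `0` the norm is `< 1 / 4`
  have hsmall : ∀ᶠ t : ℝ in 𝓝 0, ‖z + t • e‖ < 1 / 4 := by
    have hcont : Continuous fun t : ℝ => ‖z + t • e‖ := by fun_prop
    refine hcont.continuousAt.eventually_lt_const ?_
    beta_reduce
    rw [zero_smul, add_zero]
    exact hz
  have h0 : bm m (fun r => TT (pt (z + (0 : ℝ) • e) r) * c r) = g.val := by
    rw [zero_smul, add_zero, hgc]
  -- `pic` of the curve
  have hpic : (fun t : ℝ => pic (bm m (fun r => TT (pt (z + t • e) r) * c r)))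
      =ᶠ[𝓝 (0 : ℝ)] fun t => z + t • e := by
    filter_upwards [hsmall] with t ht
    have hx : ∀ r, (TT (pt (z + t • e) r) * c r).det = 1 := fun r => by
      rw [det_mul, TT_det' ht, hc, one_mul]
    exact pic_eq hx ht ((moves_iff ht m c).mpr hb)
  have hder1 : HasDerivAt (fun t : ℝ => pic (bm m (fun r => TT (pt (z + t • e) r) * c r)))
      (fderiv ℝ pic g.val (bm m w)) 0 := by
    have h1 : DifferentiableAt ℝ pic (bm m (fun r => TT (pt (z + (0 : ℝ) • e) r) * c r)) := by
      rw [h0]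
      exact (pic_contDiffAt hg).differentiableAt (by simp)
    have h2 := h1.hasFDerivAt.comp_hasDerivAt (0 : ℝ) hcurve
    rw [h0] at h2
    exact h2
  have hder2 : HasDerivAt (fun t : ℝ => pic (bm m (fun r => TT (pt (z + t • e) r) * c r))) e 0 := by
    have h1 : HasDerivAt (fun t : ℝ => z + t • e) (0 + (1 : ℝ) • e) 0 :=
      (hasDerivAt_const _ _).add ((hasDerivAt_id (0 : ℝ)).smul_const e)
    rw [zero_add, one_smul] at h1
    exact h1.congr_of_eventuallyEq hpic
  have hfin : fderiv ℝ pic g.val (bm m w) = e := hder1.unique hder2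
  -- the velocity
  set x : Fin 3 → M2 := fun r => TT (pt z r) * c r with hx
  have hxd : ∀ r, (x r).det = 1 := fun r => by
    simp only [hx]
    rw [det_mul, TT_det' hz, hc, one_mul]
  set Y : Fin 3 → M2 := fun s => adjugate (x (s + m)) * w (s + m) with hY
  have hYt : ∀ s, (Y s).trace = 0 := by
    intro s
    have h1 := trace_velocity (hw (s + m)) (by
      filter_upwards [hsmall] with t ht
      rw [det_mul, TT_det' ht, hc, one_mul])
    rw [zero_smul, add_zero] at h1
    exact h1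
  obtain ⟨A, hA, X, hX, hAX⟩ := decompose Y hYt
  refine ⟨A, hA, X, hX, ?_⟩
  rw [← hAX, hgc, bm_mul]
  rw [hgc] at hfin
  have h5 : bm (0 + m) (fun r => TT (pt z r) * c r * Y (r - m)) = bm m w := by
    rw [zero_add]
    congr 1
    funext r
    simp only [hY]
    rw [show r - m + m = r by abel, ← mul_assoc, mul_adj_self (hxd r), one_mul]
  rw [h5]
  exact hfin

end F31343D.S2
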