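import Pool.Agent.Lib_MP_f31343.Defs
import Pool.Agent.Lib_MP_f31343_dis.Basic

/-!
# Compact quotients; the groups `SL(2, ℝ)³ ⋊ ℤ/3` and `{(h, h, h')}`
-/

open Matrix F31343
open scoped Matrix.Norms.Operator

namespace F31343

/-- `G/H` admits compact quotients: some discrete subgroup `Γ` of `G` acts properly
discontinuously on `G/H` with compact quotient. -/
def AdmitsCompactQuotients {ι : Type*} [Fintype ι] [DecidableEq ι] (G H : LinRed ι) : Prop :=
  ∃ Γ : Subgroup G.grp, DiscreteTopology Γ ∧
    ProperlyDiscontinuousSMul Γ (G.grp ⧸ H.grp.subgroupOf G.grp) ∧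
    CompactSpace (MulAction.orbitRel.Quotient Γ (G.grp ⧸ H.grp.subgroupOf G.grp))

end F31343

namespace F31343D

/-- The index set of the `6 × 6` matrices, in three blocks of size `2`. -/
abbrev I6 := Fin 3 × Fin 2

/-- The block matrix whose block in the block column `c` is `x (c + m)`, in the block row
`c + m` (modulo 3); the other blocks are zero. -/
def bm (m : Fin 3) (x : Fin 3 → Matrix (Fin 2) (Fin 2) ℝ) : Matrix I6 I6 ℝ :=
  Matrix.of fun i j => if i.1 = j.1 + m then x i.1 i.2 j.2 else 0

lemma bm_apply (m : Fin 3) (x : Fin 3 → Matrix (Fin 2) (Fin 2) ℝ) (i j : I6) :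
    bm m x i j = if i.1 = j.1 + m then x i.1 i.2 j.2 else 0 := rfl

lemma bm_mul (m n : Fin 3) (x y : Fin 3 → Matrix (Fin 2) (Fin 2) ℝ) :
    bm m x * bm n y = bm (n + m) (fun r => x r * y (r - m)) := by
  ext ⟨i, a⟩ ⟨j, b⟩
  rw [Matrix.mul_apply, Fintype.sum_prod_type, bm_apply]
  simp only [bm_apply, ite_mul, zero_mul, mul_ite, mul_zero]
  have h1 : ∀ s : Fin 3, i = s + m ↔ s = i - m := fun s =>
    ⟨fun h => by rw [h]; abel, fun h => by rw [h]; abel⟩
  by_cases h : i = j + (n + m)
  · rw [if_pos h, Finset.sum_eq_single (i - m)]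
    · rw [Matrix.mul_apply]
      refine Finset.sum_congr rfl fun c _ => ?_
      rw [if_pos (show i = i - m + m by abel), if_pos (show i - m = j + n by rw [h]; abel)]
    · intro s _ hs
      refine Finset.sum_eq_zero fun c _ => ?_
      rw [if_neg (fun h' => hs ((h1 s).mp h'))]
      split <;> rfl
    · intro h; exact absurd (Finset.mem_univ _) h
  · rw [if_neg h]
    refine Finset.sum_eq_zero fun s _ => Finset.sum_eq_zero fun c _ => ?_
    by_cases h2 : i = s + m
    · rw [if_neg (show ¬ s = j + n from fun h3 => h (by rw [h2, h3]; abel))]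
    · rw [if_neg h2]
      split <;> rfl

lemma bm_one : bm 0 (fun _ => 1) = 1 := by
  ext ⟨i, a⟩ ⟨j, b⟩
  rw [bm_apply, Matrix.one_apply]
  simp only [add_zero, Prod.mk.injEq]
  by_cases h : i = j <;> by_cases h' : a = b <;> simp [h, h', Matrix.one_apply]

lemma bm_injective {m n : Fin 3} {x y : Fin 3 → Matrix (Fin 2) (Fin 2) ℝ}
    (hx : ∀ r, (x r).det = 1) (h : bm m x = bm n y) : m = n ∧ x = y := by
  have h1 : ∀ i j : I6, bm m x i j = bm n y i j := fun i j => by rw [h]
  have hm : m = n := by
    by_contra hmn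
    have h2 : x m = 0 := by
      ext a b
      have h3 := h1 (m, a) (0, b)
      rw [bm_apply, bm_apply] at h3
      simp only [zero_add, if_true, if_neg hmn] at h3
      exact h3
    have h4 := hx m
    rw [h2] at h4
    simp at h4
  subst hm
  refine ⟨rfl, ?_⟩
  funext r
  ext a b
  have h3 := h1 (r, a) (r - m, b)
  rw [bm_apply, bm_apply] at h3
  simpa using h3

end F31343D
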