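import Pool.Agent.Lib_MP_f31343_dis.GDefs
import Pool.Agent.Lib_MP_f31343.Group
import Pool.Agent.Lib_MP_f31343.Spectral

/-!
# S1: the linear reductive groups `SL(2, ℝ)³ ⋊ ℤ/3` and `{(h, h, h')}`
-/

open Matrix NormedSpace F31343
open scoped Matrix.Norms.Operator

namespace F31343D

lemma det_adj {x : Matrix (Fin 2) (Fin 2) ℝ} (h : x.det = 1) : (adjugate x).det = 1 := by
  rw [Matrix.det_adjugate, h, one_pow]

/-- `SL(2, ℝ)³ ⋊ ℤ/3` in `GL(6, ℝ)`: the cyclic block permutation matrices with blocks in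
`SL(2, ℝ)`. -/
def bigGrp : Subgroup (GL I6 ℝ) where
  carrier := {g | ∃ m x, (∀ r, (x r).det = 1) ∧ g.val = bm m x}
  one_mem' := ⟨0, fun _ => 1, fun _ => by simp, by rw [Units.val_one, bm_one]⟩
  mul_mem' := by
    rintro a b ⟨m, x, hx, ha⟩ ⟨n, y, hy, hb⟩
    refine ⟨n + m, _, fun r => ?_, by rw [Units.val_mul, ha, hb, bm_mul]⟩
    rw [det_mul, hx, hy, one_mul]
  inv_mem' := by
    rintro a ⟨m, x, hx, ha⟩
    refine ⟨-m, fun r => adjugate (x (r + m)), fun r => det_adj (hx _), ?_⟩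
    have h1 : a.val * bm (-m) (fun r => adjugate (x (r + m))) = 1 := by
      rw [ha, bm_mul]
      have h2 : (fun r => x r * adjugate (x (r - m + m))) = fun _ => 1 := by
        funext r
        rw [show r - m + m = r by abel, mul_adjugate, hx, one_smul]
      rw [h2, show -m + m = 0 by abel, bm_one]
    calc (a⁻¹).val = (a⁻¹).val * (a.val * bm (-m) (fun r => adjugate (x (r + m)))) := by
          rw [h1, mul_one]
      _ = ((a⁻¹).val * a.val) * bm (-m) (fun r => adjugate (x (r + m))) := by rw [mul_assoc]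
      _ = _ := by rw [Units.inv_mul, one_mul]

/-- The group `{(h, h, h')}`, isomorphic to `SL(2, ℝ)²`. -/
def subGrp : Subgroup (GL I6 ℝ) where
  carrier := {g | ∃ x, (∀ r, (x r).det = 1) ∧ x 0 = x 1 ∧ g.val = bm 0 x}
  one_mem' := ⟨fun _ => 1, fun _ => by simp, rfl, by rw [Units.val_one, bm_one]⟩
  mul_mem' := by
    rintro a b ⟨x, hx, hx', ha⟩ ⟨y, hy, hy', hb⟩
    refine ⟨_, fun r => ?_, ?_, by rw [Units.val_mul, ha, hb, bm_mul, add_zero]⟩
    · rw [det_mul, hx, hy, one_mul]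
    · simp only [sub_zero, hx', hy']
  inv_mem' := by
    rintro a ⟨x, hx, hx', ha⟩
    refine ⟨fun r => adjugate (x r), fun r => det_adj (hx _),
      congrArg adjugate hx', ?_⟩
    have h1 : a.val * bm 0 (fun r => adjugate (x r)) = 1 := by
      rw [ha, bm_mul, add_zero]
      have h2 : (fun r => x r * adjugate (x (r - 0))) = fun _ => 1 := by
        funext r
        rw [sub_zero, mul_adjugate, hx, one_smul]
      rw [h2, bm_one]
    calc (a⁻¹).val = (a⁻¹).val * (a.val * bm 0 (fun r => adjugate (x r))) := by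
          rw [h1, mul_one]
      _ = ((a⁻¹).val * a.val) * bm 0 (fun r => adjugate (x r)) := by rw [mul_assoc]
      _ = _ := by rw [Units.inv_mul, one_mul]

/-- Blocks of the symmetric part: `2 × 2` symmetric matrices of trace zero. -/
def IsSymTr0 (X : Matrix (Fin 2) (Fin 2) ℝ) : Prop := Xᵀ = X ∧ X.trace = 0

lemma bm_add (m : Fin 3) (x y : Fin 3 → Matrix (Fin 2) (Fin 2) ℝ) :
    bm m x + bm m y = bm m (fun r => x r + y r) := by
  ext i j
  rw [Matrix.add_apply, bm_apply, bm_apply, bm_apply]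
  split
  · rfl
  · rw [add_zero]

lemma bm_smul (m : Fin 3) (c : ℝ) (x : Fin 3 → Matrix (Fin 2) (Fin 2) ℝ) :
    c • bm m x = bm m (fun r => c • x r) := by
  ext i j
  rw [Matrix.smul_apply, bm_apply, bm_apply]
  split
  · rfl
  · rw [smul_zero]

lemma bm_zero (m : Fin 3) : bm m (fun _ => 0) = 0 := by
  ext i j
  rw [bm_apply]
  split <;> rfl

lemma bm_transpose (x : Fin 3 → Matrix (Fin 2) (Fin 2) ℝ) :
    (bm 0 x)ᵀ = bm 0 (fun r => (x r)ᵀ) := by
  ext i j
  rw [Matrix.transpose_apply, bm_apply, bm_apply, add_zero, add_zero]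
  by_cases h : i.1 = j.1
  · rw [if_pos h, if_pos h.symm, Matrix.transpose_apply, h]
  · rw [if_neg h, if_neg (fun h' => h h'.symm)]

/-- the block diagonal matrices as a ring homomorphism -/
def bmHom : (Fin 3 → Matrix (Fin 2) (Fin 2) ℝ) →+* Matrix I6 I6 ℝ where
  toFun x := bm 0 x
  map_one' := bm_one
  map_mul' x y := by
    rw [bm_mul, add_zero]
    simp only [sub_zero]
    rfl
  map_zero' := bm_zero 0
  map_add' x y := (bm_add 0 x y).symm

lemma continuous_bm (m : Fin 3) : Continuous (fun x => bm m x) := by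
  refine continuous_matrix fun i j => ?_
  simp only [bm_apply]
  split
  · exact ((continuous_apply j.2).comp ((continuous_apply i.2).comp (continuous_apply i.1)))
  · exact continuous_const

lemma exp_bm (x : Fin 3 → Matrix (Fin 2) (Fin 2) ℝ) :
    exp (bm 0 x) = bm 0 (fun r => exp (x r)) := by
  have h := NormedSpace.map_exp bmHom (continuous_bm 0) x
  have h2 : exp x = fun r => exp (x r) := Pi.exp_def x
  exact h.symm.trans (congrArg (bm 0) h2)

lemma det_exp_of {X : Matrix (Fin 2) (Fin 2) ℝ} (h : IsSymTr0 X) : (exp X).det = 1 := by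
  rw [det_exp_symm X h.1, h.2, Real.exp_zero]

/-- the block of `g` in the block row `r` -/
def blk (m : Fin 3) (g : Matrix I6 I6 ℝ) (r : Fin 3) : Matrix (Fin 2) (Fin 2) ℝ :=
  Matrix.of fun a b => g (r, a) (r - m, b)

lemma blk_bm (m : Fin 3) (x : Fin 3 → Matrix (Fin 2) (Fin 2) ℝ) : blk m (bm m x) = x := by
  funext r
  ext a b
  change bm m x (r, a) (r - m, b) = _
  rw [bm_apply]
  simp

lemma continuous_blk (m r : Fin 3) : Continuous (fun g : GL I6 ℝ => blk m g.val r) := by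
  refine continuous_matrix fun a b => ?_
  exact isOpenEmbedding_val.continuous.matrix_elem _ _

/-- a matrix with zero blocks outside the shifted diagonal is a `bm` -/
lemma eq_bm {m : Fin 3} {g : Matrix I6 I6 ℝ} (h : ∀ i j : I6, i.1 ≠ j.1 + m → g i j = 0) :
    g = bm m (blk m g) := by
  ext ⟨i, a⟩ ⟨j, b⟩
  rw [bm_apply]
  by_cases hij : i = j + m
  · subst hij
    rw [if_pos rfl]
    change _ = g (j + m, a) (j + m - m, b)
    rw [add_sub_cancel_right]
  · rw [if_neg hij]
    exact h _ _ hij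

lemma isClosed_shape (m : Fin 3) :
    IsClosed {g : GL I6 ℝ | (∀ i j : I6, i.1 ≠ j.1 + m → g.val i j = 0) ∧
      ∀ r, (blk m g.val r).det = 1} := by
  have hval : Continuous (fun g : GL I6 ℝ => g.val) := isOpenEmbedding_val.continuous
  have h1 : IsClosed {g : GL I6 ℝ | ∀ i j : I6, i.1 ≠ j.1 + m → g.val i j = 0} := by
    have e : {g : GL I6 ℝ | ∀ i j : I6, i.1 ≠ j.1 + m → g.val i j = 0} =
        ⋂ (i : I6) (j : I6) (_ : i.1 ≠ j.1 + m), {g : GL I6 ℝ | g.val i j = 0} := by
      ext g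
      simp
    rw [e]
    exact isClosed_iInter fun i => isClosed_iInter fun j => isClosed_iInter fun _ =>
      isClosed_eq (hval.matrix_elem i j) continuous_const
  have h2 : IsClosed {g : GL I6 ℝ | ∀ r, (blk m g.val r).det = 1} := by
    have e : {g : GL I6 ℝ | ∀ r, (blk m g.val r).det = 1} =
        ⋂ r : Fin 3, {g : GL I6 ℝ | (blk m g.val r).det = 1} := by
      ext g
      simp
    rw [e]
    exact isClosed_iInter fun r => isClosed_eq (continuous_blk m r).matrix_det continuous_const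
  exact h1.inter h2

lemma mem_shape {m : Fin 3} {g : GL I6 ℝ} :
    ((∀ i j : I6, i.1 ≠ j.1 + m → g.val i j = 0) ∧ ∀ r, (blk m g.val r).det = 1) ↔
      ∃ x : Fin 3 → Matrix (Fin 2) (Fin 2) ℝ, (∀ r, (x r).det = 1) ∧ g.val = bm m x := by
  constructor
  · rintro ⟨h1, h2⟩
    exact ⟨_, h2, eq_bm h1⟩
  · rintro ⟨x, hx, hg⟩
    refine ⟨fun i j hij => ?_, fun r => ?_⟩
    · rw [hg, bm_apply, if_neg hij]
    · rw [hg, blk_bm, hx]

/-- the polar decomposition in `SL(2, ℝ)` -/
lemma polar2 {x : Matrix (Fin 2) (Fin 2) ℝ} (hx : x.det = 1) :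
    ∃ X : Matrix (Fin 2) (Fin 2) ℝ, IsSymTr0 X ∧ exp (X + X) = xᵀ * x ∧
      (x * exp (-X))ᵀ * (x * exp (-X)) = 1 ∧ x * exp (-X) * exp X = x := by
  have hu : IsUnit x := by
    rw [Matrix.isUnit_iff_isUnit_det, hx]
    exact isUnit_one
  obtain ⟨X, h1, h2, h3, h4⟩ := exists_polar hu.unit
  refine ⟨X, ⟨h1, ?_⟩, h2, h3, h4⟩
  have h5 := det_exp_symm (X + X) (by rw [transpose_add, h1])
  rw [h2, det_mul, det_transpose] at h5
  change x.det * x.det = _ at h5
  rw [hx, one_mul] at h5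
  have h6 : (X + X).trace = 0 := Real.exp_injective (h5.symm.trans Real.exp_zero.symm)
  rw [trace_add] at h6
  linarith

lemma isSymTr0_add {X Y : Matrix (Fin 2) (Fin 2) ℝ} (hX : IsSymTr0 X) (hY : IsSymTr0 Y) :
    IsSymTr0 (X + Y) :=
  ⟨by rw [transpose_add, hX.1, hY.1], by rw [trace_add, hX.2, hY.2, add_zero]⟩

lemma isSymTr0_smul (c : ℝ) {X : Matrix (Fin 2) (Fin 2) ℝ} (hX : IsSymTr0 X) :
    IsSymTr0 (c • X) :=
  ⟨by rw [transpose_smul, hX.1], by rw [trace_smul, hX.2, smul_zero]⟩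

lemma isSymTr0_zero : IsSymTr0 0 := ⟨transpose_zero, trace_zero _ _⟩

/-- the unit with value `bm m x` -/
lemma exists_unit_bm (m : Fin 3) {x : Fin 3 → Matrix (Fin 2) (Fin 2) ℝ}
    (hx : ∀ r, (x r).det = 1) : ∃ g : GL I6 ℝ, g.val = bm m x := by
  have h1 : bm m x * bm (-m) (fun r => adjugate (x (r + m))) = 1 := by
    rw [bm_mul]
    have h2 : (fun r => x r * adjugate (x (r - m + m))) = fun _ => 1 := by
      funext r
      rw [show r - m + m = r by abel, mul_adjugate, hx, one_smul]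
    rw [h2, show -m + m = 0 by abel, bm_one]
  exact ⟨⟨bm m x, _, h1, mul_eq_one_comm.mp h1⟩, rfl⟩

lemma bm_orth {m : Fin 3} {k : Fin 3 → Matrix (Fin 2) (Fin 2) ℝ}
    (hk : ∀ r, (k r)ᵀ * k r = 1) : (bm m k)ᵀ * bm m k = 1 := by
  have h1 : (bm m k)ᵀ = bm (-m) (fun r => (k (r + m))ᵀ) := by
    ext i j
    rw [Matrix.transpose_apply, bm_apply, bm_apply]
    by_cases h : j.1 = i.1 + m
    · rw [if_pos h, if_pos (by rw [h]; abel), Matrix.transpose_apply, h]
    · rw [if_neg h, if_neg (fun h' => h (by rw [h']; abel))]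
  rw [h1, bm_mul]
  have h2 : (fun r => (k (r + m))ᵀ * k (r - -m)) = fun _ => 1 := by
    funext r
    rw [sub_neg_eq_add, hk]
  rw [h2, add_neg_cancel, bm_one]

/-- `SL(2, ℝ)³ ⋊ ℤ/3` as a linear reductive group. -/
noncomputable def bigG : LinRed I6 where
  grp := bigGrp
  isClosed := by
    have e : (bigGrp : Set (GL I6 ℝ)) = ⋃ m : Fin 3,
        {g : GL I6 ℝ | (∀ i j : I6, i.1 ≠ j.1 + m → g.val i j = 0) ∧
          ∀ r, (blk m g.val r).det = 1} := by
      ext g
      rw [Set.mem_iUnion]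
      constructor
      · rintro ⟨m, hm⟩
        exact ⟨m, mem_shape.2 hm⟩
      · rintro ⟨m, hm⟩
        exact ⟨m, mem_shape.1 hm⟩
    rw [e]
    exact isClosed_iUnion_of_finite isClosed_shape
  𝔭 :=
    { carrier := {Y | ∃ X, (∀ r, IsSymTr0 (X r)) ∧ Y = bm 0 X}
      add_mem' := by
        rintro _ _ ⟨X, hX, rfl⟩ ⟨Y, hY, rfl⟩
        exact ⟨_, fun r => isSymTr0_add (hX r) (hY r), bm_add 0 X Y⟩
      zero_mem' := ⟨fun _ => 0, fun _ => isSymTr0_zero, (bm_zero 0).symm⟩
      smul_mem' := by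
        rintro c _ ⟨X, hX, rfl⟩
        exact ⟨_, fun r => isSymTr0_smul c (hX r), bm_smul 0 c X⟩ }
  symm := by
    rintro _ ⟨X, hX, rfl⟩
    rw [bm_transpose]
    congr 1
    funext r
    exact (hX r).1
  exp_mem := by
    rintro _ ⟨X, hX, rfl⟩ g hg
    rw [exp_bm] at hg
    exact ⟨0, _, fun r => det_exp_of (hX r), hg⟩
  cartan := by
    rintro g ⟨m, x, hx, hg⟩
    choose X hX h2 h3 h4 using fun r => polar2 (hx r)
    have hneg : ∀ r, IsSymTr0 (-X r) := fun r => by
      have := isSymTr0_smul (-1) (hX r)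
      rwa [neg_one_smul] at this
    have hkd : ∀ r, (x r * exp (-X r)).det = 1 := fun r => by
      rw [det_mul, hx, det_exp_of (hneg r), one_mul]
    obtain ⟨k, hk⟩ := exists_unit_bm m hkd
    refine ⟨k, ⟨m, _, hkd, hk⟩, bm 0 (fun r => X (r + m)), ⟨_, fun r => hX _, rfl⟩, ?_, ?_⟩
    · rw [hk]
      exact bm_orth h3
    · rw [hg, hk, exp_bm, bm_mul, zero_add]
      congr 1
      funext r
      rw [sub_add_cancel, h4]

/-- `{(h, h, h')}` as a linear reductive group. -/
noncomputable def subH : LinRed I6 where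
  grp := subGrp
  isClosed := by
    have e : (subGrp : Set (GL I6 ℝ)) =
        {g : GL I6 ℝ | (∀ i j : I6, i.1 ≠ j.1 + 0 → g.val i j = 0) ∧
          ∀ r, (blk 0 g.val r).det = 1} ∩ {g : GL I6 ℝ | blk 0 g.val 0 = blk 0 g.val 1} := by
      ext g
      constructor
      · rintro ⟨x, hx, hx', hg⟩
        refine ⟨mem_shape.2 ⟨x, hx, hg⟩, ?_⟩
        change blk 0 g.val 0 = blk 0 g.val 1
        rw [hg, blk_bm, hx']
      · rintro ⟨h1, h2⟩
        refine ⟨_, h1.2, h2, eq_bm h1.1⟩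
    rw [e]
    exact (isClosed_shape 0).inter (isClosed_eq (continuous_blk 0 0) (continuous_blk 0 1))
  𝔭 :=
    { carrier := {Y | ∃ X, (∀ r, IsSymTr0 (X r)) ∧ X 0 = X 1 ∧ Y = bm 0 X}
      add_mem' := by
        rintro _ _ ⟨X, hX, hX', rfl⟩ ⟨Y, hY, hY', rfl⟩
        exact ⟨_, fun r => isSymTr0_add (hX r) (hY r), by simp only [hX', hY'], bm_add 0 X Y⟩
      zero_mem' := ⟨fun _ => 0, fun _ => isSymTr0_zero, rfl, (bm_zero 0).symm⟩
      smul_mem' := by
        rintro c _ ⟨X, hX, hX', rfl⟩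
        exact ⟨_, fun r => isSymTr0_smul c (hX r), by simp only [hX'], bm_smul 0 c X⟩ }
  symm := by
    rintro _ ⟨X, hX, -, rfl⟩
    rw [bm_transpose]
    congr 1
    funext r
    exact (hX r).1
  exp_mem := by
    rintro _ ⟨X, hX, hX', rfl⟩ g hg
    rw [exp_bm] at hg
    exact ⟨_, fun r => det_exp_of (hX r), by simp only [hX'], hg⟩
  cartan := by
    rintro g ⟨x, hx, hx', hg⟩
    choose X0 hX0 h20 h30 h40 using fun r => polar2 (hx r)
    -- the same `X` for the blocks `0` and `1`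
    obtain ⟨X, hX, h3, h4, hX'⟩ : ∃ X : Fin 3 → Matrix (Fin 2) (Fin 2) ℝ, (∀ r, IsSymTr0 (X r)) ∧
        (∀ r, (x r * exp (-X r))ᵀ * (x r * exp (-X r)) = 1) ∧
        (∀ r, x r * exp (-X r) * exp (X r) = x r) ∧ X 0 = X 1 := by
      refine ⟨fun r => if r = 1 then X0 0 else X0 r, fun r => ?_, fun r => ?_, fun r => ?_, ?_⟩
      · dsimp only
        split
        · exact hX0 0
        · exact hX0 r
      · dsimp only
        split
        · rename_i h
          rw [h, ← hx']
          exact h30 0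
        · exact h30 r
      · dsimp only
        split
        · rename_i h
          rw [h, ← hx']
          exact h40 0
        · exact h40 r
      · simp
    have hneg : ∀ r, IsSymTr0 (-X r) := fun r => by
      have := isSymTr0_smul (-1) (hX r)
      rwa [neg_one_smul] at this
    have hkd : ∀ r, (x r * exp (-X r)).det = 1 := fun r => by
      rw [det_mul, hx, det_exp_of (hneg r), one_mul]
    obtain ⟨k, hk⟩ := exists_unit_bm 0 hkd
    refine ⟨k, ⟨_, hkd, by simp only [hX', hx'], hk⟩, bm 0 X, ⟨_, hX, hX', rfl⟩, ?_, ?_⟩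
    · rw [hk]
      exact bm_orth h3
    · rw [hg, hk, exp_bm, bm_mul, zero_add]
      congr 1
      funext r
      rw [sub_zero, h4]

theorem subH_le : subH.grp ≤ bigG.grp := by
  rintro g ⟨x, hx, -, hg⟩
  exact ⟨0, x, hx, hg⟩

/-- the symmetric matrix of trace zero with entries `a`, `b` -/
def sym2 (a b : ℝ) : Matrix (Fin 2) (Fin 2) ℝ := !![a, b; b, -a]

lemma isSymTr0_sym2 (a b : ℝ) : IsSymTr0 (sym2 a b) := by
  constructor
  · ext i j
    fin_cases i <;> fin_cases j <;> rfl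
  · simp [sym2, Matrix.trace_fin_two]

lemma eq_sym2 {X : Matrix (Fin 2) (Fin 2) ℝ} (hX : IsSymTr0 X) : X = sym2 (X 0 0) (X 0 1) := by
  obtain ⟨h1, h2⟩ := hX
  have h3 : X 1 0 = X 0 1 := by
    have := congrFun (congrFun h1 0) 1
    rwa [Matrix.transpose_apply] at this
  rw [Matrix.trace_fin_two] at h2
  ext i j
  fin_cases i <;> fin_cases j
  · rfl
  · rfl
  · exact h3
  · change X 1 1 = -X 0 0
    linarith

/-- parametrisation of `𝔭` of `bigG` -/
def parG : (Fin 3 → Fin 2 → ℝ) →ₗ[ℝ] Matrix I6 I6 ℝ where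
  toFun v := bm 0 (fun r => sym2 (v r 0) (v r 1))
  map_add' v w := by
    rw [bm_add]
    congr 1
    funext r
    ext i j
    fin_cases i <;> fin_cases j <;> simp [sym2] <;> ring
  map_smul' c v := by
    rw [RingHom.id_apply, bm_smul]
    congr 1
    funext r
    ext i j
    fin_cases i <;> fin_cases j <;> simp [sym2]

/-- parametrisation of `𝔭` of `subH` -/
def parH : (Fin 2 → Fin 2 → ℝ) →ₗ[ℝ] Matrix I6 I6 ℝ where
  toFun v := bm 0 (fun r => sym2 (v (if r = 2 then 1 else 0) 0) (v (if r = 2 then 1 else 0) 1))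
  map_add' v w := by
    rw [bm_add]
    congr 1
    funext r
    ext i j
    fin_cases i <;> fin_cases j <;> simp [sym2] <;> ring
  map_smul' c v := by
    rw [RingHom.id_apply, bm_smul]
    congr 1
    funext r
    ext i j
    fin_cases i <;> fin_cases j <;> simp [sym2]

lemma parG_apply (v : Fin 3 → Fin 2 → ℝ) : parG v = bm 0 (fun r => sym2 (v r 0) (v r 1)) := rfl

lemma parH_apply (v : Fin 2 → Fin 2 → ℝ) : parH v =
    bm 0 (fun r => sym2 (v (if r = 2 then 1 else 0) 0) (v (if r = 2 then 1 else 0) 1)) := rfl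

lemma bm_inj0 {x y : Fin 3 → Matrix (Fin 2) (Fin 2) ℝ} (h : bm 0 x = bm 0 y) : x = y := by
  rw [← blk_bm 0 x, ← blk_bm 0 y, h]

lemma sym2_inj {a b c d : ℝ} (h : sym2 a b = sym2 c d) : a = c ∧ b = d :=
  ⟨congrFun (congrFun h 0) 0, congrFun (congrFun h 0) 1⟩

lemma finrank_pG : Module.finrank ℝ bigG.𝔭 = 6 := by
  have h1 : bigG.𝔭 = LinearMap.range parG := by
    ext Y
    constructor
    · rintro ⟨X, hX, rfl⟩
      refine ⟨fun r => ![X r 0 0, X r 0 1], ?_⟩
      change bm 0 (fun r => sym2 (X r 0 0) (X r 0 1)) = bm 0 X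
      congr 1
      funext r
      exact (eq_sym2 (hX r)).symm
    · rintro ⟨v, rfl⟩
      exact ⟨fun r => sym2 (v r 0) (v r 1), fun r => isSymTr0_sym2 _ _, parG_apply v⟩
  have h2 : Function.Injective parG := by
    intro v w h
    have h3 := bm_inj0 (show bm 0 (fun r => sym2 (v r 0) (v r 1)) =
      bm 0 (fun r => sym2 (w r 0) (w r 1)) from h)
    funext r i
    have h4 := sym2_inj (congrFun h3 r)
    fin_cases i
    · exact h4.1
    · exact h4.2
  rw [h1, LinearMap.finrank_range_of_inj h2, Module.finrank_pi_fintype]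
  simp

lemma finrank_pH : Module.finrank ℝ subH.𝔭 = 4 := by
  have h1 : subH.𝔭 = LinearMap.range parH := by
    ext Y
    constructor
    · rintro ⟨X, hX, hX', rfl⟩
      refine ⟨fun s => ![X (if s = 1 then 2 else 0) 0 0, X (if s = 1 then 2 else 0) 0 1], ?_⟩
      rw [parH_apply]
      congr 1
      funext r
      rw [eq_sym2 (hX r)]
      fin_cases r
      · simp
      · simp [hX']
      · simp
    · rintro ⟨v, rfl⟩
      refine ⟨fun r => sym2 (v (if r = 2 then 1 else 0) 0) (v (if r = 2 then 1 else 0) 1),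
        fun r => isSymTr0_sym2 _ _, ?_, parH_apply v⟩
      simp
  have h2 : Function.Injective parH := by
    intro v w h
    have h3 := bm_inj0 (show bm 0 (fun r => sym2 (v (if r = 2 then 1 else 0) 0)
      (v (if r = 2 then 1 else 0) 1)) = bm 0 (fun r => sym2 (w (if r = 2 then 1 else 0) 0)
      (w (if r = 2 then 1 else 0) 1)) from h)
    have h4 := sym2_inj (congrFun h3 0)
    have h5 := sym2_inj (congrFun h3 2)
    simp at h4 h5
    funext r i
    fin_cases r <;> fin_cases i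
    · exact h4.1
    · exact h4.2
    · exact h5.1
    · exact h5.2
  rw [h1, LinearMap.finrank_range_of_inj h2, Module.finrank_pi_fintype]
  simp

/-- The base has dimension 2. -/
theorem codim_eq : codim bigG subH = 2 := by
  unfold codim
  rw [finrank_pG, finrank_pH]

end F31343D
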