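import Pool.Agent.Lib_MP_f31343_q.Link
import Pool.Agent.Lib_MP_f31343_dis.Extract
import Pool.Agent.Lib_MP_f31343_dis.Fib

/-!
# Assembly
-/

open F31343

namespace F31343D

/-- No group has three representations in `SL(2, ℝ)` all of whose pairs act properly discontinuously
and cocompactly. -/
theorem core {Γ : Type*} [Group Γ] {ρ : Fin 3 → Γ →* SL2} (h : Bad Γ ρ) : False :=
  F31343.Quot.no_bad h

/-- `G/H` has no compact quotients. -/
theorem no_compact_quotient : ¬ AdmitsCompactQuotients bigG subH := by
  intro h
  obtain ⟨Γ, _, ρ, hρ⟩ := exists_bad h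
  exact core hρ

end F31343D
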